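import Mathlib

/-!
# Quasitoric representatives of equivariant unitary bordism classes: definitions

`FixedPoint n`    : a fixed point of a `2n`-dimensional unitary toric manifold (sign and weights).
`cls L`           : the class of a list of fixed points in the free abelian group on unordered
                    collections of weights.
`Integral L`      : the Atiyah-Bott-Berline-Vergne integrality of all symmetric functions of the
                    Chern roots (satisfied by the fixed points of every unitary toric manifold).
`QuasitoricPair n`: a simple polytope in `ℝ^n` with a characteristic (omniorientation) function.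
-/

namespace Pool.Agent.W31.QT

open scoped BigOperators
open MvPolynomial

/-! ## fixed point data -/

/-- The data of an isolated fixed point `p` of a `2n`-dimensional unitary toric manifold `M`:
`sgn` is `+1` or `-1` according to whether the orientation of `M` at `p` agrees with the one
given by the complex structure of the `T^n`-representation `T_p M`, and the rows `wt i` are the
weights of this representation, elements of `Hom (T^n, S^1) = ℤ^n`.  As the action is effective
they form a basis of `ℤ^n`. -/
structure FixedPoint (n : ℕ) where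
  sgn : ℤˣ
  wt : Matrix (Fin n) (Fin n) ℤ
  unimod : IsUnit wt.det

/-- The unordered collection (multiset) of the rows of a matrix. -/
def rows {n : ℕ} (w : Matrix (Fin n) (Fin n) ℤ) : Multiset (Fin n → ℤ) :=
  (Finset.univ : Finset (Fin n)).val.map w

/-- The class of a list of fixed points: the sum of `sgn p • [weights of p]` in the free abelian
group on unordered collections of weights. -/
noncomputable def cls {n : ℕ} (L : List (FixedPoint n)) : Multiset (Fin n → ℤ) →₀ ℤ :=
  (L.map fun p => Finsupp.single (rows p.wt) (p.sgn : ℤ)).sum

/-- The linear form `∑ j, w j * t_j` in `ℚ[t_0, …, t_(n-1)] = H^*(BT^n; ℚ)`: the Euler class of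
the one-dimensional representation of weight `w`. -/
noncomputable def lin {n : ℕ} (w : Fin n → ℤ) : MvPolynomial (Fin n) ℚ :=
  ∑ j, C (w j : ℚ) * X j

/-- The localization sum `∑_p sgn p * f (weights of p) / (product of the weights of p)`,
in the field of fractions of `ℚ[t_0, …, t_(n-1)]`. -/
noncomputable def locSum {n : ℕ} (L : List (FixedPoint n)) (f : MvPolynomial (Fin n) ℚ) :
    FractionRing (MvPolynomial (Fin n) ℚ) :=
  (L.map fun p => ((p.sgn : ℤ) : FractionRing (MvPolynomial (Fin n) ℚ)) *
    algebraMap _ _ (aeval (fun i => lin (p.wt i)) f) /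
      algebraMap _ _ (∏ i, lin (p.wt i))).sum

/-- Integrality of all localization sums: for every symmetric polynomial `f` in the Chern roots
the sum `∑_p sgn p * f (weights of p) / (product of the weights of p)` is a polynomial. -/
def Integral {n : ℕ} (L : List (FixedPoint n)) : Prop :=
  ∀ f : MvPolynomial (Fin n) ℚ, f.IsSymmetric →
    ∃ g : MvPolynomial (Fin n) ℚ, locSum L f = algebraMap _ _ g

/-! ## quasitoric pairs -/

/-- A simple `n`-polytope `P = {x : ∀ i, 0 ≤ ⟪a i, x⟫ + b i}` in `ℝ^n`, given by its irredundant
system of `m` inequalities, one for each facet. -/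
structure SimplePolytope (n : ℕ) where
  /-- number of facets -/
  m : ℕ
  /-- inner normal vectors of the facets -/
  a : Fin m → Fin n → ℝ
  b : Fin m → ℝ
  /-- `P` is bounded -/
  bounded : Bornology.IsBounded {x : Fin n → ℝ | ∀ i, 0 ≤ a i ⬝ᵥ x + b i}
  /-- `P` has interior points -/
  full : ∃ x : Fin n → ℝ, ∀ i, 0 < a i ⬝ᵥ x + b i
  /-- every inequality defines a facet -/
  facet : ∀ i, ∃ x : Fin n → ℝ, a i ⬝ᵥ x + b i = 0 ∧ ∀ j, j ≠ i → 0 < a j ⬝ᵥ x + b j
  /-- `P` is simple: at each point of `P` the normals of the facets through it are linearly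
  independent -/
  simple : ∀ x : Fin n → ℝ, (∀ i, 0 ≤ a i ⬝ᵥ x + b i) →
    LinearIndependent ℝ (fun i : {i : Fin m // a i ⬝ᵥ x + b i = 0} => a i)

namespace SimplePolytope

variable {n : ℕ}

open Classical in
/-- The vertices of `P`, each given by the increasing enumeration `f` of the `n` facets which
contain it. -/
noncomputable def verts (P : SimplePolytope n) : Finset (Fin n → Fin P.m) :=
  Finset.univ.filter fun f => StrictMono f ∧
    ∃ x : Fin n → ℝ, (∀ i, 0 ≤ P.a i ⬝ᵥ x + P.b i) ∧ ∀ i, P.a (f i) ⬝ᵥ x + P.b (f i) = 0

/-- The sign of the determinant of the inner normals at a vertex. -/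
noncomputable def vsign (P : SimplePolytope n) (f : Fin n → Fin P.m) : ℤ :=
  (SignType.sign (Matrix.of fun i => P.a (f i)).det : ℤ)

end SimplePolytope

/-- A quasitoric pair: a simple `n`-polytope together with a characteristic function `lam` which
assigns to each facet a vector of `Hom (S^1, T^n) = ℤ^n` such that the `n` vectors at each vertex
form a basis of `ℤ^n`. -/
structure QuasitoricPair (n : ℕ) extends SimplePolytope n where
  /-- the characteristic function -/
  lam : Fin m → Fin n → ℤ
  /-- the vectors of the `n` facets which meet in a vertex form a basis of `ℤ^n` -/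
  unimod : ∀ f ∈ toSimplePolytope.verts, IsUnit (Matrix.of fun i => lam (f i)).det

namespace QuasitoricPair

variable {n : ℕ}

/-- The class of the fixed points of the omnioriented quasitoric manifold of a pair: at the
vertex with facets `f 0 < … < f (n-1)` the sign is
`sign (det (a (f 0), …)) * det (lam (f 0), …)` and the weights are the basis dual to
`lam (f 0), …, lam (f (n-1))`, i.e. the rows of the inverse of the transposed matrix. -/
noncomputable def cls (Q : QuasitoricPair n) : Multiset (Fin n → ℤ) →₀ ℤ :=
  ∑ f ∈ Q.verts, Finsupp.single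
    (rows ((Matrix.of fun i => Q.lam (f i)).transpose)⁻¹)
    (Q.vsign f * (Matrix.of fun i => Q.lam (f i)).det)

end QuasitoricPair

/-! ## chains of the universal complex -/

section chains

variable {M : Type} [AddCommGroup M]

/-- The exterior algebra of the free abelian group on the set `M`. -/
abbrev E (M : Type) [AddCommGroup M] : Type := ExteriorAlgebra ℤ (M →₀ ℤ)

/-- The vertex `v`. -/
noncomputable def pt (v : M) : E M := ExteriorAlgebra.ι ℤ (Finsupp.single v 1)

/-- The oriented simplex with the given list of vertices. -/
noncomputable def pr (l : List M) : E M := (l.map pt).prod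

/-- The boundary operator: contraction with the augmentation. -/
noncomputable def bd : E M →ₗ[ℤ] E M :=
  CliffordAlgebra.contractLeft (Q := (0 : QuadraticForm ℤ (M →₀ ℤ)))
    (Finsupp.linearCombination ℤ (fun _ : M => (1 : ℤ)))

/-- `SS g t`: the vector `t` is a signed sum `∑ ± x` over the members `x` of the list `g`. -/
inductive SS : List M → M → Prop
  | nil : SS [] 0
  | pos (x : M) (g : List M) (t : M) : SS g t → SS (x :: g) (x + t)
  | neg (x : M) (g : List M) (t : M) : SS g t → SS (x :: g) (t - x)

/-- The span of a list of vectors. -/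
def sp (g : List M) : Submodule ℤ M := Submodule.span ℤ {x | x ∈ g}

/-- `Ok H gs`: every list `g` in `gs` has a signed sum in the span of `H` and of the previous
lists, and the span of everything is the whole module. -/
def Ok : Submodule ℤ M → List (List M) → Prop
  | H, [] => H = ⊤
  | H, g :: gs => g ≠ [] ∧ (∃ t, SS g t ∧ t ∈ H) ∧ Ok (H ⊔ sp g) gs

/-- The total dimension `∑ (length - 1)`. -/
def len (gs : List (List M)) : ℕ := (gs.map fun g => g.length - 1).sum

/-- The class `∏ ∂ (simplex g)` of the join of the boundaries of the simplices `g`. -/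
noncomputable def kl (gs : List (List M)) : E M := (gs.map fun g => bd (pr g)).prod

/-- Chains of dimension `m - 1` of the link of `H` with vertices in `U`. -/
noncomputable def Ch (m : ℕ) (H : Submodule ℤ M) (U : Set M) : Submodule ℤ (E M) :=
  Submodule.span ℤ {y | ∃ l : List M, l.length = m ∧ (∀ x ∈ l, x ∈ U) ∧ H ⊔ sp l = ⊤ ∧ y = pr l}

/-- `Fct gs l`: the list `l` is obtained from the lists in `gs` by omitting one member of each
and concatenating (a facet of the join of the boundaries). -/
def Fct : List (List M) → List M → Prop
  | [], l => l = []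
  | g :: gs, l => ∃ i, i < g.length ∧ ∃ l', Fct gs l' ∧ l = g.eraseIdx i ++ l'

/-- The group generated by the classes `kl gs`. -/
noncomputable def Pg (m : ℕ) (H : Submodule ℤ M) : Submodule ℤ (E M) :=
  Submodule.span ℤ {y | ∃ gs : List (List M), Ok H gs ∧ len gs = m ∧ y = kl gs}

end chains

/-! ## the chain of a list of fixed points and of a quasitoric pair -/

variable {n : ℕ}

/-- The basis dual to the weights. -/
noncomputable def dualOf (w : Matrix (Fin n) (Fin n) ℤ) : Matrix (Fin n) (Fin n) ℤ :=
  (w.transpose)⁻¹

/-- `∑_p sgn p * det (wt p) • (λ_1 ∧ … ∧ λ_n)`, `λ` the basis dual to the weights. -/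
noncomputable def chainOf (L : List (FixedPoint n)) : E (Fin n → ℤ) :=
  (L.map fun p => ((p.sgn : ℤ) * p.wt.det) • pr (List.ofFn fun i => dualOf p.wt i)).sum

/-- `∑_v sign (det a) • (λ_1 ∧ … ∧ λ_n)` over the vertices `v` of the polytope. -/
noncomputable def SimplePolytope.chain {M : Type} [AddCommGroup M] (P : SimplePolytope n)
    (lam : Fin P.m → M) : E M :=
  ∑ f ∈ P.verts, P.vsign f • pr (List.ofFn fun i => lam (f i))

/-! ## the parts -/

/-- Part A: integrality implies that the chain is a cycle. -/
def TaskA : Prop := ∀ (n : ℕ) (L : List (FixedPoint n)), Integral L → bd (chainOf L) = 0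

/-- Part B: products of simplices.  For every list of nonempty lists there is a simple polytope
(a product of simplices) with a labelling of its facets whose chain is `kl gs` and whose vertices
have the labels of the facets of the join. -/
def TaskB : Prop := ∀ (M : Type) [AddCommGroup M] (gs : List (List M)), (∀ g ∈ gs, g ≠ []) →
  ∃ (P : SimplePolytope (len gs)) (lam : Fin P.m → M), P.chain lam = kl gs ∧
    ∀ f ∈ P.verts, Fct gs (List.ofFn fun i => lam (f i))

/-- Part B': reversing the orientation by a reflection of the first coordinate. -/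
def TaskB' : Prop := ∀ (n : ℕ), 1 ≤ n → ∀ P : SimplePolytope n, ∃ (P' : SimplePolytope n)
  (h : P'.m = P.m), ∀ f : Fin n → Fin P'.m, (f ∈ P'.verts ↔ (fun i => Fin.cast h (f i)) ∈ P.verts) ∧
    P'.vsign f = - P.vsign (fun i => Fin.cast h (f i))

/-- Part C: the fixed point class can be read off from the chain. -/
def TaskC : Prop := ∀ (n : ℕ), ∃ Θ : E (Fin n → ℤ) →ₗ[ℤ] (Multiset (Fin n → ℤ) →₀ ℤ),
  ∀ l : Matrix (Fin n) (Fin n) ℤ, IsUnit l.det →
    Θ (pr (List.ofFn fun i => l i)) = Finsupp.single (rows (l.transpose)⁻¹) l.det

/-- Part D: every cycle of the universal complex is a sum of classes `kl gs`. -/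
def TaskD : Prop := ∀ (n : ℕ) (z : E (Fin n → ℤ)), z ∈ Ch n (⊥ : Submodule ℤ (Fin n → ℤ)) Set.univ →
  bd z = 0 → z ∈ Pg n (⊥ : Submodule ℤ (Fin n → ℤ))

end Pool.Agent.W31.QT
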