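import Pool.Agent.W31.QT.D4

/-! Assembly. -/

namespace Pool.Agent.W31.QT

variable {n : ℕ}

lemma dualOf_det (w : Matrix (Fin n) (Fin n) ℤ) (hw : IsUnit w.det) :
    IsUnit (dualOf w).det ∧ w.det * (dualOf w).det = 1 := by
  have h1 : IsUnit w.transpose.det := by rwa [Matrix.det_transpose]
  have h2 : (dualOf w).det * w.transpose.det = 1 := by
    unfold dualOf
    rw [← Matrix.det_mul, Matrix.nonsing_inv_mul _ h1, Matrix.det_one]
  rw [Matrix.det_transpose] at h2
  exact ⟨IsUnit.of_mul_eq_one _ h2, by rw [mul_comm]; exact h2⟩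

lemma rows_dual_dual (w : Matrix (Fin n) (Fin n) ℤ) (hw : IsUnit w.det) :
    ((dualOf w).transpose)⁻¹ = w := by
  unfold dualOf
  rw [Matrix.transpose_nonsing_inv, Matrix.transpose_transpose, Matrix.nonsing_inv_nonsing_inv _ hw]

lemma sp_ofFn_top (l : Matrix (Fin n) (Fin n) ℤ) (hl : IsUnit l.det) :
    sp (List.ofFn fun i => l i) = (⊤ : Submodule ℤ (Fin n → ℤ)) := by
  rw [sp_eq_range, eq_top_iff]
  intro x _
  have h1 : x = Matrix.vecMul (Matrix.vecMul x l⁻¹) l := by
    rw [Matrix.vecMul_vecMul, Matrix.nonsing_inv_mul _ hl, Matrix.vecMul_one]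
  have h2 : Matrix.vecMul (Matrix.vecMul x l⁻¹) l = ∑ i, (Matrix.vecMul x l⁻¹) i • l i := by
    ext j
    simp [Matrix.vecMul, dotProduct]
  rw [h1, h2]
  exact Submodule.sum_mem _ (fun i _ => Submodule.smul_mem _ _ (Submodule.subset_span ⟨i, rfl⟩))

lemma det_of_sp_top (l : Fin n → Fin n → ℤ)
    (h : sp (List.ofFn l) = (⊤ : Submodule ℤ (Fin n → ℤ))) : IsUnit (Matrix.of l).det := by
  rw [sp_eq_range] at h
  have hsurj : Function.Surjective (Matrix.of l).vecMulLinear := by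
    intro x
    have hx : x ∈ Submodule.span ℤ (Set.range l) := by rw [h]; trivial
    obtain ⟨c, hc⟩ := (Submodule.mem_span_range_iff_exists_fun ℤ).mp hx
    refine ⟨c, ?_⟩
    rw [← hc]
    ext j
    simp [Matrix.vecMulLinear, Matrix.vecMul, dotProduct]
  have h2 : ∀ i, ∃ c : Fin n → ℤ, (Matrix.of l).vecMulLinear c = Pi.single i 1 := fun i => hsurj _
  choose c hc using h2
  have h3 : (Matrix.of c) * (Matrix.of l) = 1 := by
    ext i j
    have := congrFun (hc i) j
    simp only [Matrix.vecMulLinear_apply, Matrix.vecMul, dotProduct] at this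
    rw [Matrix.mul_apply]
    simp only [Matrix.of_apply] at this ⊢
    rw [this, Matrix.one_apply, Pi.single_apply]
    simp [eq_comm]
  exact Matrix.isUnit_det_of_left_inverse h3

lemma Fct_sp {M : Type} [AddCommGroup M] {gs : List (List M)} : ∀ {H : Submodule ℤ M} {l : List M},
    Ok H gs → Fct gs l → H ⊔ sp l = ⊤ := by
  induction gs with
  | nil =>
    intro H l hok hf
    have h1 : H = ⊤ := hok
    rw [h1]; simp
  | cons g gs ih =>
    intro H l hok hf
    obtain ⟨hne, ⟨t, hs, ht⟩, hok'⟩ := hok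
    obtain ⟨i, hi, l', hl', rfl⟩ := hf
    have hp : g.Perm (g[i] :: g.eraseIdx i) := (List.getElem_cons_eraseIdx_perm hi).symm
    rw [sp_append, ← sup_assoc]
    rw [← SS_drop (SS_perm hp hs) ht, ← sp_perm hp]
    exact ih hok' hl'

lemma Ok_ne {M : Type} [AddCommGroup M] {gs : List (List M)} : ∀ {H : Submodule ℤ M},
    Ok H gs → ∀ g ∈ gs, g ≠ [] := by
  induction gs with
  | nil => intro H _ g hg; simp at hg
  | cons g gs ih =>
    intro H hok g' hg'
    obtain ⟨hne, _, hok'⟩ := hok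
    rcases List.mem_cons.mp hg' with rfl | h
    · exact hne
    · exact ih hok' g' h

/-- The chain of a quasitoric pair. -/
noncomputable def QuasitoricPair.ch (Q : QuasitoricPair n) : E (Fin n → ℤ) :=
  Q.toSimplePolytope.chain Q.lam

lemma exists_pair_aux {k : ℕ} (P : SimplePolytope k) (hk : k = n)
    (lam : Fin P.m → (Fin n → ℤ)) (hu : ∀ f ∈ P.verts, sp (List.ofFn fun i => lam (f i)) = ⊤) :
    (∃ Q : QuasitoricPair n, Q.ch = P.chain lam) ∧
      (TaskB' → 1 ≤ n → ∃ Q : QuasitoricPair n, Q.ch = - P.chain lam) := by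
  subst hk
  refine ⟨⟨{ P with lam := lam, unimod := fun f hf => det_of_sp_top _ (hu f hf) }, rfl⟩, ?_⟩
  intro hB' hn
  obtain ⟨P', h, hP'⟩ := hB' k hn P
  let lam' : Fin P'.m → (Fin k → ℤ) := fun i => lam (Fin.cast h i)
  refine ⟨{ P' with
    lam := lam'
    unimod := fun f hf => det_of_sp_top _ (hu _ ((hP' f).1.mp hf)) }, ?_⟩
  show P'.chain lam' = - P.chain lam
  unfold SimplePolytope.chain
  rw [← Finset.sum_neg_distrib]
  refine Finset.sum_bij' (fun f _ => fun i => Fin.cast h (f i)) (fun f _ => fun i => Fin.cast h.symm (f i))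
    ?_ ?_ ?_ ?_ ?_
  · intro f hf; exact (hP' f).1.mp hf
  · intro f hf
    rw [(hP' _).1]
    simpa using hf
  · intro f _; simp
  · intro f _; simp
  · intro f _
    rw [(hP' f).2, neg_smul]

lemma exists_pair (hB : TaskB) (hB' : TaskB') (hn : 1 ≤ n) (gs : List (List (Fin n → ℤ)))
    (hok : Ok ⊥ gs) (hlen : len gs = n) :
    (∃ Q : QuasitoricPair n, Q.ch = kl gs) ∧ (∃ Q : QuasitoricPair n, Q.ch = - kl gs) := by
  obtain ⟨P, lam, h1, h2⟩ := hB (Fin n → ℤ) gs (Ok_ne hok)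
  have hu : ∀ f ∈ P.verts, sp (List.ofFn fun i => lam (f i)) = ⊤ := by
    intro f hf
    have := Fct_sp hok (h2 f hf)
    rwa [bot_sup_eq] at this
  have := exists_pair_aux P hlen lam hu
  rw [h1] at this
  exact ⟨this.1, this.2 hB' hn⟩

lemma exists_list (hB : TaskB) (hB' : TaskB') (hn : 1 ≤ n) {z : E (Fin n → ℤ)}
    (hz : z ∈ Pg n (⊥ : Submodule ℤ (Fin n → ℤ))) :
    (∃ Qs : List (QuasitoricPair n), (Qs.map QuasitoricPair.ch).sum = z) ∧
    (∃ Qs : List (QuasitoricPair n), (Qs.map QuasitoricPair.ch).sum = -z) := by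
  unfold Pg at hz
  induction hz using Submodule.span_induction with
  | mem x hx =>
    obtain ⟨gs, h1, h2, rfl⟩ := hx
    obtain ⟨⟨Q, hQ⟩, ⟨Q', hQ'⟩⟩ := exists_pair hB hB' hn gs h1 h2
    exact ⟨⟨[Q], by simp [hQ]⟩, ⟨[Q'], by simp [hQ']⟩⟩
  | zero => exact ⟨⟨[], by simp⟩, ⟨[], by simp⟩⟩
  | add x y _ _ hx hy =>
    obtain ⟨⟨Q1, h1⟩, ⟨Q1', h1'⟩⟩ := hx
    obtain ⟨⟨Q2, h2⟩, ⟨Q2', h2'⟩⟩ := hy
    exact ⟨⟨Q1 ++ Q2, by rw [List.map_append, List.sum_append, h1, h2]⟩,
      ⟨Q1' ++ Q2', by rw [List.map_append, List.sum_append, h1', h2', neg_add]⟩⟩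
  | smul c x hx' hx =>
    have key : ∀ (y : E (Fin n → ℤ)), (∃ Qs : List (QuasitoricPair n),
        (Qs.map QuasitoricPair.ch).sum = y) → ∀ m : ℕ, ∃ Qs : List (QuasitoricPair n),
        (Qs.map QuasitoricPair.ch).sum = (m : ℤ) • y := by
      rintro y ⟨Q, hQ⟩ m
      induction m with
      | zero => exact ⟨[], by simp⟩
      | succ m ih =>
        obtain ⟨Q', h'⟩ := ih
        refine ⟨Q' ++ Q, ?_⟩
        rw [List.map_append, List.sum_append, h', hQ]
        push_cast
        rw [add_smul, one_smul]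
    rcases le_total 0 c with h0 | h0
    · obtain ⟨m, rfl⟩ := Int.eq_ofNat_of_zero_le h0
      refine ⟨key x hx.1 m, ?_⟩
      obtain ⟨Q, hQ⟩ := key (-x) hx.2 m
      exact ⟨Q, by rw [hQ, smul_neg]⟩
    · obtain ⟨m, hm⟩ := Int.eq_ofNat_of_zero_le (show 0 ≤ -c by omega)
      have hc : c = -(m : ℤ) := by omega
      subst hc
      refine ⟨?_, ?_⟩
      · obtain ⟨Q, hQ⟩ := key (-x) hx.2 m
        exact ⟨Q, by rw [hQ, smul_neg, neg_smul]⟩
      · obtain ⟨Q, hQ⟩ := key x hx.1 m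
        exact ⟨Q, by rw [hQ, neg_smul, neg_neg]⟩

lemma chainOf_mem (L : List (FixedPoint n)) :
    chainOf L ∈ Ch n (⊥ : Submodule ℤ (Fin n → ℤ)) Set.univ := by
  unfold chainOf
  induction L with
  | nil => simp
  | cons p L ih =>
    rw [List.map_cons, List.sum_cons]
    refine Submodule.add_mem _ (Submodule.smul_mem _ _ ?_) ih
    apply Submodule.subset_span
    refine ⟨_, by simp, fun _ _ => trivial, ?_, rfl⟩
    rw [bot_sup_eq]
    exact sp_ofFn_top _ (dualOf_det p.wt p.unimod).1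

theorem assembly (hA : TaskA) (hB : TaskB) (hB' : TaskB') (hC : TaskC) (n : ℕ) (hn : 1 ≤ n)
    (L : List (FixedPoint n)) (hL : Integral L) :
    ∃ Qs : List (QuasitoricPair n), cls L = (Qs.map QuasitoricPair.cls).sum := by
  obtain ⟨Θ, hΘ⟩ := hC n
  have h1 := taskD n _ (chainOf_mem L) (hA n L hL)
  obtain ⟨Qs, hQs⟩ := (exists_list hB hB' hn h1).1
  refine ⟨Qs, ?_⟩
  have h2 : Θ (chainOf L) = cls L := by
    unfold chainOf cls
    rw [map_list_sum, List.map_map]
    congr 1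
    apply List.map_congr_left
    intro p _
    simp only [Function.comp_apply]
    rw [map_smul, hΘ _ (dualOf_det p.wt p.unimod).1, rows_dual_dual _ p.unimod,
      Finsupp.smul_single, smul_eq_mul, mul_assoc, (dualOf_det p.wt p.unimod).2, mul_one]
  have h3 : ∀ Q : QuasitoricPair n, Θ Q.ch = Q.cls := by
    intro Q
    unfold QuasitoricPair.ch SimplePolytope.chain QuasitoricPair.cls
    rw [map_sum]
    apply Finset.sum_congr rfl
    intro f hf
    have := hΘ (Matrix.of fun i => Q.lam (f i)) (Q.unimod f hf)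
    rw [map_smul]
    rw [show (List.ofFn fun i => Q.lam (f i)) = List.ofFn fun i =>
      (Matrix.of fun i => Q.lam (f i)) i from rfl, this, Finsupp.smul_single, smul_eq_mul]
  rw [← h2, ← hQs, map_list_sum, List.map_map]
  congr 1
  apply List.map_congr_left
  intro Q _
  exact h3 Q

end Pool.Agent.W31.QT
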