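import Pool.Agent.W31.QT.Defs

/-! Basic lemmas on the chains of the universal complex. -/

namespace Pool.Agent.W31.QT

variable {M : Type} [AddCommGroup M]

lemma pr_nil : pr ([] : List M) = 1 := rfl

lemma pr_cons (x : M) (l : List M) : pr (x :: l) = pt x * pr l := by simp [pr]

lemma pr_append (l l' : List M) : pr (l ++ l') = pr l * pr l' := by simp [pr]

lemma kl_nil : kl ([] : List (List M)) = 1 := rfl

lemma kl_cons (g : List M) (gs : List (List M)) : kl (g :: gs) = bd (pr g) * kl gs := by simp [kl]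

lemma pt_sq (x : M) : pt x * pt x = 0 := ExteriorAlgebra.ι_sq_zero _

lemma pt_comm (x y : M) : pt x * pt y = - (pt y * pt x) := by
  have := ExteriorAlgebra.ι_add_mul_swap (R := ℤ) (Finsupp.single x 1) (Finsupp.single y (1 : ℤ))
  exact eq_neg_of_add_eq_zero_left this

lemma bd_pt_mul (x : M) (y : E M) : bd (pt x * y) = y - pt x * bd y := by
  have := CliffordAlgebra.contractLeft_ι_mul (Q := (0 : QuadraticForm ℤ (M →₀ ℤ)))
    (d := Finsupp.linearCombination ℤ (fun _ : M => (1 : ℤ))) (Finsupp.single x 1) y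
  simpa [bd, pt] using this

lemma bd_one : bd (1 : E M) = 0 := by
  simp [bd]

lemma bd_bd (y : E M) : bd (bd y) = 0 := by
  unfold bd
  exact CliffordAlgebra.contractLeft_contractLeft _ y

/-- Contraction with the coordinate of the vertex `v`. -/
noncomputable def dl (v : M) : E M →ₗ[ℤ] E M :=
  CliffordAlgebra.contractLeft (Q := (0 : QuadraticForm ℤ (M →₀ ℤ))) (Finsupp.lapply v)

lemma dl_pt_mul_self (v : M) (y : E M) : dl v (pt v * y) = y - pt v * dl v y := by
  have := CliffordAlgebra.contractLeft_ι_mul (Q := (0 : QuadraticForm ℤ (M →₀ ℤ)))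
    (d := Finsupp.lapply v) (Finsupp.single v 1) y
  simpa [dl, pt] using this

lemma dl_pt_mul_of_ne {v x : M} (h : x ≠ v) (y : E M) : dl v (pt x * y) = - (pt x * dl v y) := by
  have := CliffordAlgebra.contractLeft_ι_mul (Q := (0 : QuadraticForm ℤ (M →₀ ℤ)))
    (d := Finsupp.lapply v) (Finsupp.single x 1) y
  simpa [dl, pt, Finsupp.single_apply, h] using this

lemma dl_one (v : M) : dl v (1 : E M) = 0 := by simp [dl]

lemma bd_dl (v : M) (y : E M) : bd (dl v y) = - dl v (bd y) := by
  simp only [bd, dl]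
  rw [CliffordAlgebra.contractLeft_comm]

/-! ### permutations -/

lemma pr_perm {g g' : List M} (h : g.Perm g') : pr g = pr g' ∨ pr g = - pr g' := by
  induction h with
  | nil => left; rfl
  | cons x _ ih =>
    rcases ih with ih | ih
    · left; rw [pr_cons, pr_cons, ih]
    · right; rw [pr_cons, pr_cons, ih, mul_neg]
  | swap x y l =>
    right
    rw [pr_cons, pr_cons, pr_cons, pr_cons, ← mul_assoc, ← mul_assoc, pt_comm y x, neg_mul]
  | trans _ _ ih1 ih2 =>
    rcases ih1 with h1 | h1 <;> rcases ih2 with h2 | h2 <;> rw [h1, h2] <;> simp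

lemma dl_pr_of_notMem {v : M} {l : List M} (h : v ∉ l) : dl v (pr l) = 0 := by
  induction l with
  | nil => rw [pr_nil, dl_one]
  | cons x l ih =>
    simp only [List.mem_cons, not_or] at h
    rw [pr_cons, dl_pt_mul_of_ne (Ne.symm h.1), ih h.2, mul_zero, neg_zero]

lemma pt_mul_pr_of_mem {v : M} {l : List M} (h : v ∈ l) : pt v * pr l = 0 := by
  classical
  have hl := List.perm_cons_erase h
  rcases pr_perm hl with h | h <;> rw [h, pr_cons] <;> simp [← mul_assoc, pt_sq]

/-! ### induced maps -/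

/-- The map of exterior algebras induced by a map of vertices. -/
noncomputable def mp (R : M → M) : E M →ₐ[ℤ] E M :=
  ExteriorAlgebra.map (Finsupp.lmapDomain ℤ ℤ R)

lemma mp_pt (R : M → M) (x : M) : mp R (pt x) = pt (R x) := by
  simp [mp, pt]

lemma mp_pr (R : M → M) (l : List M) : mp R (pr l) = pr (l.map R) := by
  induction l with
  | nil => simp [pr_nil]
  | cons x l ih => rw [pr_cons, map_mul, mp_pt, ih, List.map_cons, pr_cons]

lemma mp_bd_pr (R : M → M) (l : List M) : mp R (bd (pr l)) = bd (pr (l.map R)) := by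
  induction l with
  | nil => simp [pr_nil, bd_one]
  | cons x l ih =>
    rw [pr_cons, bd_pt_mul, map_sub, map_mul, mp_pt, mp_pr, ih, List.map_cons, pr_cons, bd_pt_mul]

lemma mp_kl (R : M → M) (gs : List (List M)) : mp R (kl gs) = kl (gs.map (fun g => g.map R)) := by
  induction gs with
  | nil => simp [kl_nil]
  | cons g gs ih => rw [kl_cons, map_mul, mp_bd_pr, ih, List.map_cons, kl_cons]

/-! ### cycles -/

lemma bd_pr_mul {y : E M} (hy : bd y = 0) (g : List M) : bd (pr g * y) = bd (pr g) * y := by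
  induction g with
  | nil => simp [pr_nil, bd_one, hy]
  | cons x g ih => rw [pr_cons, mul_assoc, bd_pt_mul, ih, bd_pt_mul, sub_mul, mul_assoc]

lemma bd_kl (gs : List (List M)) : bd (kl gs) = 0 := by
  induction gs with
  | nil => rw [kl_nil, bd_one]
  | cons g gs ih => rw [kl_cons, ← bd_pr_mul ih, bd_bd]

lemma bd_Pg {m : ℕ} {H : Submodule ℤ M} {y : E M} (hy : y ∈ Pg m H) : bd y = 0 := by
  unfold Pg at hy
  induction hy using Submodule.span_induction with
  | mem x hx => obtain ⟨gs, -, -, rfl⟩ := hx; exact bd_kl gs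
  | zero => simp
  | add x y _ _ hx hy => rw [map_add, hx, hy, add_zero]
  | smul a x _ hx => rw [map_smul, hx, smul_zero]

/-! ### commutation -/

/-- Products commute with vertices up to sign. -/
def Cm (z : E M) : Prop := (∀ v : M, pt v * z = z * pt v) ∨ (∀ v : M, pt v * z = - (z * pt v))

lemma pt_mul_pr (v : M) (g : List M) : pt v * pr g = (-1 : ℤ) ^ g.length • (pr g * pt v) := by
  induction g with
  | nil => simp [pr_nil]
  | cons x g ih =>
    rw [pr_cons, ← mul_assoc, pt_comm v x, neg_mul, mul_assoc, ih, List.length_cons, pow_succ,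
      mul_neg_one, neg_smul, mul_smul_comm, mul_assoc]

lemma pt_mul_bd_pr (v : M) (g : List M) :
    pt v * bd (pr g) = - ((-1 : ℤ) ^ g.length • (bd (pr g) * pt v)) := by
  induction g with
  | nil => simp [pr_nil, bd_one]
  | cons x g ih =>
    rw [pr_cons, bd_pt_mul, mul_sub, sub_mul, pt_mul_pr, ← mul_assoc, pt_comm v x, neg_mul,
      mul_assoc, ih, List.length_cons, pow_succ, mul_neg_one, neg_smul, neg_neg, mul_neg,
      mul_smul_comm, neg_neg, smul_sub, mul_assoc]

lemma Cm_bd_pr (g : List M) : Cm (bd (pr g)) := by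
  rcases neg_one_pow_eq_or ℤ g.length with h | h
  · right; intro v; rw [pt_mul_bd_pr, h]; simp
  · left; intro v; rw [pt_mul_bd_pr, h]; simp

/-! ### signed sums -/

lemma SS_neg {g : List M} {t : M} (h : SS g t) : SS g (-t) := by
  induction h with
  | nil => simpa using SS.nil
  | pos x g t _ ih =>
    have := SS.neg x g (-t) ih
    rwa [show -t - x = -(x + t) by abel] at this
  | neg x g t _ ih =>
    have := SS.pos x g (-t) ih
    rwa [show x + -t = -(t - x) by abel] at this

lemma SS_cons {x : M} {g : List M} {t : M} (h : SS (x :: g) t) :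
    ∃ t', SS g t' ∧ (t = x + t' ∨ t = t' - x) := by
  cases h with
  | pos _ _ t' h => exact ⟨t', h, Or.inl rfl⟩
  | neg _ _ t' h => exact ⟨t', h, Or.inr rfl⟩

lemma SS_perm {g g' : List M} (h : g.Perm g') : ∀ {t : M}, SS g t → SS g' t := by
  induction h with
  | nil => exact id
  | cons x _ ih =>
    intro t ht
    obtain ⟨t', h', rfl | rfl⟩ := SS_cons ht
    · exact SS.pos _ _ _ (ih h')
    · exact SS.neg _ _ _ (ih h')
  | swap x y l =>
    intro t ht
    obtain ⟨t', h', rfl | rfl⟩ := SS_cons ht <;> obtain ⟨t'', h'', rfl | rfl⟩ := SS_cons h'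
    · have := SS.pos x _ _ (SS.pos y _ _ h'')
      rwa [show x + (y + t'') = y + (x + t'') by abel] at this
    · have := SS.neg x _ _ (SS.pos y _ _ h'')
      rwa [show y + t'' - x = y + (t'' - x) by abel] at this
    · have := SS.pos x _ _ (SS.neg y _ _ h'')
      rwa [show x + (t'' - y) = x + t'' - y by abel] at this
    · have := SS.neg x _ _ (SS.neg y _ _ h'')
      rwa [show t'' - y - x = t'' - x - y by abel] at this
  | trans _ _ ih1 ih2 => exact fun h => ih2 (ih1 h)

/-- If a signed sum has positive level, some summand has positive level. -/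
lemma SS_pick (ℓ : M →ₗ[ℤ] ℤ) {g : List M} {t : M} (h : SS g t) (ht : 0 < ℓ t) :
    ∃ x g' t', g.Perm (x :: g') ∧ SS g' t' ∧ ((0 < ℓ x ∧ t = x + t') ∨ (ℓ x < 0 ∧ t = t' - x)) := by
  induction h with
  | nil => simp at ht
  | pos x g t h ih =>
    by_cases hx : 0 < ℓ x
    · exact ⟨x, g, t, List.Perm.refl _, h, Or.inl ⟨hx, rfl⟩⟩
    · have : 0 < ℓ t := by rw [map_add] at ht; omega
      obtain ⟨y, g', t', hp, hs, hh⟩ := ih this
      refine ⟨y, x :: g', x + t', (hp.cons x).trans (List.Perm.swap y x g'), SS.pos _ _ _ hs, ?_⟩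
      rcases hh with ⟨h1, h2⟩ | ⟨h1, h2⟩
      · left; exact ⟨h1, by rw [h2]; abel⟩
      · right; exact ⟨h1, by rw [h2]; abel⟩
  | neg x g t h ih =>
    by_cases hx : ℓ x < 0
    · exact ⟨x, g, t, List.Perm.refl _, h, Or.inr ⟨hx, rfl⟩⟩
    · have : 0 < ℓ t := by rw [map_sub] at ht; omega
      obtain ⟨y, g', t', hp, hs, hh⟩ := ih this
      refine ⟨y, x :: g', t' - x, (hp.cons x).trans (List.Perm.swap y x g'), SS.neg _ _ _ hs, ?_⟩
      rcases hh with ⟨h1, h2⟩ | ⟨h1, h2⟩
      · left; exact ⟨h1, by rw [h2]; abel⟩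
      · right; exact ⟨h1, by rw [h2]; abel⟩

/-! ### spans -/

lemma sp_nil : sp ([] : List M) = ⊥ := by simp [sp]

lemma sp_cons (x : M) (g : List M) : sp (x :: g) = sp [x] ⊔ sp g := by
  unfold sp
  rw [← Submodule.span_union]
  congr 1
  ext y; simp

lemma sp_append (g g' : List M) : sp (g ++ g') = sp g ⊔ sp g' := by
  unfold sp
  rw [← Submodule.span_union]
  congr 1
  ext y; simp

lemma sp_perm {g g' : List M} (h : g.Perm g') : sp g = sp g' := by
  unfold sp
  congr 1
  ext y; simp [h.mem_iff]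

lemma mem_sp {x : M} {g : List M} (h : x ∈ g) : x ∈ sp g := Submodule.subset_span h

lemma sp_le {g : List M} {H : Submodule ℤ M} : sp g ≤ H ↔ ∀ x ∈ g, x ∈ H := by
  unfold sp; rw [Submodule.span_le]; rfl

lemma mem_sup_singleton {H : Submodule ℤ M} {v t : M} (h : t ∈ H ⊔ sp [v]) :
    ∃ h ∈ H, ∃ c : ℤ, t = h + c • v := by
  obtain ⟨a, ha, b, hb, rfl⟩ := Submodule.mem_sup.mp h
  unfold sp at hb
  simp only [List.mem_singleton, Set.ofPred_eq_eq_singleton] at hb
  obtain ⟨c, rfl⟩ := Submodule.mem_span_singleton.mp hb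
  exact ⟨a, ha, c, rfl⟩

lemma SS_mem_sp {g : List M} {t : M} (h : SS g t) : t ∈ sp g := by
  induction h with
  | nil => exact Submodule.zero_mem _
  | pos x g t _ ih =>
    rw [sp_cons]
    exact Submodule.add_mem_sup (mem_sp (by simp)) ih
  | neg x g t _ ih =>
    rw [sp_cons, sub_eq_add_neg, add_comm]
    exact Submodule.add_mem_sup (Submodule.neg_mem _ (mem_sp (by simp))) ih

/-- A relation with signs allows to drop a vertex. -/
lemma SS_drop {H : Submodule ℤ M} {x : M} {g : List M} {t : M} (h : SS (x :: g) t) (ht : t ∈ H) :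
    H ⊔ sp (x :: g) = H ⊔ sp g := by
  obtain ⟨t', h', hh⟩ := SS_cons h
  apply le_antisymm
  · rw [sp_cons]
    refine sup_le le_sup_left (sup_le ?_ le_sup_right)
    rw [sp_le]
    intro y hy
    simp only [List.mem_singleton] at hy
    subst hy
    have h1 : t ∈ H ⊔ sp g := (le_sup_left : H ≤ H ⊔ sp g) ht
    have h2 : t' ∈ H ⊔ sp g := (le_sup_right : sp g ≤ H ⊔ sp g) (SS_mem_sp h')
    rcases hh with rfl | rfl
    · have := Submodule.sub_mem _ h1 h2
      simpa using this
    · have := Submodule.sub_mem _ h2 h1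
      simpa using this
  · rw [sp_cons]
    exact sup_le le_sup_left (le_sup_right.trans le_sup_right)

end Pool.Agent.W31.QT
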