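import Pool.Agent.W31.QT.D1

/-! Membership lemmas for `Ch` and `Pg`. -/

namespace Pool.Agent.W31.QT

variable {M : Type} [AddCommGroup M]

lemma Ch_mono {m : ℕ} {H : Submodule ℤ M} {U U' : Set M} (h : U ⊆ U') : Ch m H U ≤ Ch m H U' := by
  unfold Ch
  apply Submodule.span_mono
  rintro y ⟨l, h1, h2, h3, h4⟩
  exact ⟨l, h1, fun x hx => h (h2 x hx), h3, h4⟩

lemma pr_mul_mem_Ch {m : ℕ} {H : Submodule ℤ M} {U : Set M} {g : List M} (hg : ∀ x ∈ g, x ∈ U)
    {y : E M} (hy : y ∈ Ch m (H ⊔ sp g) U) : pr g * y ∈ Ch (g.length + m) H U := by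
  unfold Ch at hy
  induction hy using Submodule.span_induction with
  | mem x hx =>
    obtain ⟨l, h1, h2, h3, rfl⟩ := hx
    apply Submodule.subset_span
    refine ⟨g ++ l, by simp [h1], ?_, by rw [sp_append, ← sup_assoc, h3], by rw [pr_append]⟩
    intro x hx
    rcases List.mem_append.mp hx with h | h
    · exact hg x h
    · exact h2 x h
  | zero => simp
  | add x y _ _ hx hy => rw [mul_add]; exact Submodule.add_mem _ hx hy
  | smul a x _ hx => rw [mul_smul_comm]; exact Submodule.smul_mem _ _ hx

lemma pt_mul_mem_Ch {m : ℕ} {H : Submodule ℤ M} {U : Set M} {v : M} (hv : v ∈ U)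
    {y : E M} (hy : y ∈ Ch m (H ⊔ sp [v]) U) : pt v * y ∈ Ch (m + 1) H U := by
  have := pr_mul_mem_Ch (g := [v]) (by simpa using hv) hy
  rw [pr_cons, pr_nil, mul_one, List.length_singleton, add_comm] at this
  exact this

lemma bd_pr_mem (g : List M) :
    bd (pr g) ∈ Submodule.span ℤ {y : E M | ∃ x g', g.Perm (x :: g') ∧ y = pr g'} := by
  induction g with
  | nil => simp [pr_nil, bd_one]
  | cons x g ih =>
    rw [pr_cons, bd_pt_mul]
    apply Submodule.sub_mem
    · exact Submodule.subset_span ⟨x, g, List.Perm.refl _, rfl⟩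
    · have key : ∀ z ∈ Submodule.span ℤ {y : E M | ∃ x g', g.Perm (x :: g') ∧ y = pr g'},
          pt x * z ∈ Submodule.span ℤ {y : E M | ∃ x' g', (x :: g).Perm (x' :: g') ∧ y = pr g'} := by
        intro z hz
        induction hz using Submodule.span_induction with
        | mem y hy =>
          obtain ⟨z, g', hp, rfl⟩ := hy
          apply Submodule.subset_span
          exact ⟨z, x :: g', (hp.cons x).trans (List.Perm.swap z x g'), by rw [pr_cons]⟩
        | zero => simp
        | add y z _ _ hy hz => rw [mul_add]; exact Submodule.add_mem _ hy hz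
        | smul a y _ hy => rw [mul_smul_comm]; exact Submodule.smul_mem _ _ hy
      exact key _ ih

lemma bd_pr_mul_mem_Ch {m : ℕ} {H : Submodule ℤ M} {U : Set M} {g : List M} (hgU : ∀ x ∈ g, x ∈ U)
    {t : M} (hs : SS g t) (ht : t ∈ H)
    {y : E M} (hy : y ∈ Ch m (H ⊔ sp g) U) : bd (pr g) * y ∈ Ch (g.length - 1 + m) H U := by
  have key : ∀ z ∈ Submodule.span ℤ {y : E M | ∃ x g', g.Perm (x :: g') ∧ y = pr g'},
      z * y ∈ Ch (g.length - 1 + m) H U := by
    intro z hz
    induction hz using Submodule.span_induction with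
    | mem z hz =>
      obtain ⟨x, g', hp, rfl⟩ := hz
      have h1 : H ⊔ sp g = H ⊔ sp g' := by
        rw [sp_perm hp]; exact SS_drop (SS_perm hp hs) ht
      rw [h1] at hy
      have h2 := pr_mul_mem_Ch (g := g') (fun x hx => hgU x (hp.mem_iff.mpr (by simp [hx]))) hy
      rwa [show g'.length = g.length - 1 by rw [hp.length_eq]; simp] at h2
    | zero => simp
    | add y z _ _ hy hz => rw [add_mul]; exact Submodule.add_mem _ hy hz
    | smul a y _ hy => rw [smul_mul_assoc]; exact Submodule.smul_mem _ _ hy
  exact key _ (bd_pr_mem g)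

lemma len_cons (g : List M) (gs : List (List M)) : len (g :: gs) = g.length - 1 + len gs := by
  simp [len]

lemma kl_mem_Ch {gs : List (List M)} : ∀ {H : Submodule ℤ M} {U : Set M}, Ok H gs →
    (∀ g ∈ gs, ∀ x ∈ g, x ∈ U) → kl gs ∈ Ch (len gs) H U := by
  induction gs with
  | nil =>
    intro H U hok _
    apply Submodule.subset_span
    exact ⟨[], rfl, by simp, by rw [show H = ⊤ from hok]; simp, rfl⟩
  | cons g gs ih =>
    intro H U hok hU
    obtain ⟨hne, ⟨t, hs, ht⟩, hok'⟩ := hok
    rw [kl_cons, len_cons]
    exact bd_pr_mul_mem_Ch (fun x hx => hU g (by simp) x hx) hs ht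
      (ih hok' (fun g' hg' => hU g' (by simp [hg'])))

lemma kl_mem_Pg {gs : List (List M)} {H : Submodule ℤ M} (h : Ok H gs) : kl gs ∈ Pg (len gs) H :=
  Submodule.subset_span ⟨gs, h, rfl, rfl⟩

lemma bd_pr_mul_mem_Pg {m : ℕ} {H : Submodule ℤ M} {g : List M} (hne : g ≠ []) {t : M}
    (hs : SS g t) (ht : t ∈ H) {y : E M} (hy : y ∈ Pg m (H ⊔ sp g)) :
    bd (pr g) * y ∈ Pg (g.length - 1 + m) H := by
  unfold Pg at hy
  induction hy using Submodule.span_induction with
  | mem x hx =>
    obtain ⟨gs, h1, h2, rfl⟩ := hx
    apply Submodule.subset_span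
    exact ⟨g :: gs, ⟨hne, ⟨t, hs, ht⟩, h1⟩, by rw [len_cons, h2], by rw [kl_cons]⟩
  | zero => simp
  | add x y _ _ hx hy => rw [mul_add]; exact Submodule.add_mem _ hx hy
  | smul a x _ hx => rw [mul_smul_comm]; exact Submodule.smul_mem _ _ hx

/-- The vertices of level less than `k`. -/
def Lv (ℓ : M →ₗ[ℤ] ℤ) (k : ℤ) : Set M := {x | |ℓ x| < k}

lemma neg_one_smul_mem {R : Type} [AddCommGroup R] {S : Submodule ℤ R} {x : R} (h : -x ∈ S) : x ∈ S := by
  simpa using Submodule.neg_mem _ h

/-- The main step for a fixed vertex `v` and the class `kl gs` in its link. -/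
theorem S2 (ℓ : M →ₗ[ℤ] ℤ) (e : M) (he : ℓ e = 1 ∨ ℓ e = -1) (k : ℤ) (hk : 0 < k) (v : M)
    (hv : ℓ v = k) : ∀ (gs : List (List M)) (H : Submodule ℤ M), (∀ h ∈ H, ℓ h = 0) →
    Ok (H ⊔ sp [v]) gs → (∀ g ∈ gs, ∀ x ∈ g, |ℓ x| < k) →
    pt v * kl gs ∈ Pg (len gs + 1) H ⊔ Ch (len gs + 1) H (insert e (Lv ℓ k)) := by
  intro gs
  induction gs with
  | nil =>
    intro H hH hok _
    have htop : H ⊔ sp [v] = ⊤ := hok
    have hmem : ∀ x : M, ∃ h ∈ H, ∃ c : ℤ, x = h + c • v := fun x =>
      mem_sup_singleton (by rw [htop]; trivial)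
    have hk1 : k = 1 := by
      obtain ⟨h, hh, c, hc⟩ := hmem e
      have : ℓ e = c * k := by rw [hc, map_add, hH h hh, map_smul, hv]; simp
      rcases he with he | he
      · rw [he] at this
        exact Int.eq_one_of_dvd_one hk.le ⟨c, by linarith⟩
      · rw [he] at this
        exact Int.eq_one_of_dvd_one hk.le ⟨-c, by linarith⟩
    have hker : ∀ x : M, ℓ x = 0 → x ∈ H := by
      intro x hx
      obtain ⟨h, hh, c, hc⟩ := hmem x
      have : ℓ x = c * k := by rw [hc, map_add, hH h hh, map_smul, hv]; simp
      rw [hx, hk1, mul_one] at this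
      rw [hc, ← this]; simpa using hh
    have hrel : ∃ t, SS [v, e] t ∧ t ∈ H := by
      rcases he with he | he
      · refine ⟨v + (0 - e), SS.pos _ _ _ (SS.neg _ _ _ SS.nil), hker _ ?_⟩
        simp [hv, he, hk1]
      · refine ⟨v + (e + 0), SS.pos _ _ _ (SS.pos _ _ _ SS.nil), hker _ ?_⟩
        simp [hv, he, hk1]
    have hb : bd (pr [v, e]) = pt e - pt v := by
      rw [pr_cons, pr_cons, pr_nil, mul_one, bd_pt_mul]
      have : bd (pt e) = 1 := by
        have := bd_pt_mul e (1 : E M)
        rw [mul_one, bd_one] at this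
        simpa using this
      rw [this, mul_one]
    rw [kl_nil, mul_one, show pt v = - bd (pr [v, e]) + pt e by rw [hb]; abel]
    apply Submodule.add_mem
    · apply (le_sup_left : Pg _ H ≤ _)
      apply Submodule.neg_mem
      have h1 : Ok H [[v, e]] := by
        refine ⟨by simp, hrel, ?_⟩
        show H ⊔ sp [v, e] = ⊤
        rw [sp_cons, ← sup_assoc, htop]; simp
      have := kl_mem_Pg h1
      rw [kl_cons, kl_nil, mul_one] at this
      exact this
    · apply (le_sup_right : Ch _ H _ ≤ _)
      apply Submodule.subset_span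
      refine ⟨[e], rfl, by simp, ?_, by rw [pr_cons, pr_nil, mul_one]⟩
      rw [eq_top_iff]
      intro x _
      have : x - (ℓ x * ℓ e) • e ∈ H := by
        apply hker
        rw [map_sub, map_smul, smul_eq_mul]
        rcases he with he | he <;> rw [he] <;> ring
      rw [show x = (x - (ℓ x * ℓ e) • e) + (ℓ x * ℓ e) • e by abel]
      exact Submodule.add_mem_sup this (Submodule.smul_mem _ _ (mem_sp (by simp)))
  | cons g gs ih =>
    intro H hH hok hlab
    obtain ⟨hne, ⟨t, hs, ht⟩, hok'⟩ := hok
    have hlab' : ∀ g ∈ gs, ∀ x ∈ g, |ℓ x| < k := fun g' hg' => hlab g' (by simp [hg'])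
    have hlabg : ∀ x ∈ g, |ℓ x| < k := hlab g (by simp)
    -- inner induction on the coefficient of `v` in the relation
    have inner : ∀ (c : ℕ) (g : List M) (t : M), g ≠ [] → SS g t → (∃ h ∈ H, t = h + (c : ℤ) • v) →
        (∀ x ∈ g, |ℓ x| < k) → Ok (H ⊔ sp [v] ⊔ sp g) gs →
        pt v * (bd (pr g) * kl gs) ∈
          Pg (g.length - 1 + len gs + 1) H ⊔ Ch (g.length - 1 + len gs + 1) H (insert e (Lv ℓ k)) := by
      intro c
      induction c with
      | zero =>
        intro g t hne hs ht hlabg hok'
        obtain ⟨h, hh, rfl⟩ := ht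
        simp only [Nat.cast_zero, zero_smul, add_zero] at hs
        by_cases hz : ∀ x ∈ g, ℓ x = 0
        · -- all labels at level zero: use the outer induction hypothesis
          have hH0 : ∀ y ∈ H ⊔ sp g, ℓ y = 0 := by
            intro y hy
            obtain ⟨a, ha, b, hb, rfl⟩ := Submodule.mem_sup.mp hy
            rw [map_add, hH a ha, zero_add]
            have : sp g ≤ LinearMap.ker ℓ := by
              rw [sp_le]; intro x hx; exact hz x hx
            exact this hb
          have hok2 : Ok (H ⊔ sp g ⊔ sp [v]) gs := by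
            rwa [sup_right_comm] at hok'
          have hI := ih (H ⊔ sp g) hH0 hok2 hlab'
          have hgU : ∀ x ∈ g, x ∈ insert e (Lv ℓ k) := fun x hx => Or.inr (hlabg x hx)
          have hmul : ∀ z ∈ Pg (len gs + 1) (H ⊔ sp g) ⊔ Ch (len gs + 1) (H ⊔ sp g) (insert e (Lv ℓ k)),
              bd (pr g) * z ∈ Pg (g.length - 1 + len gs + 1) H ⊔
                Ch (g.length - 1 + len gs + 1) H (insert e (Lv ℓ k)) := by
            intro z hz
            obtain ⟨a, ha, b, hb, rfl⟩ := Submodule.mem_sup.mp hz
            rw [mul_add, add_assoc]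
            exact Submodule.add_mem_sup (bd_pr_mul_mem_Pg hne hs hh ha)
              (bd_pr_mul_mem_Ch hgU hs hh hb)
          have h1 := hmul _ hI
          rw [← mul_assoc]
          rcases Cm_bd_pr g with hc | hc
          · rw [hc v, mul_assoc]; exact h1
          · rw [hc v, neg_mul, mul_assoc]; exact Submodule.neg_mem _ h1
        · push Not at hz
          obtain ⟨x, hx, hx0⟩ := hz
          -- `v' = v ∓ x`
          obtain ⟨v', hv', hlv', hvx⟩ : ∃ v', (v' = v - x ∨ v' = v + x) ∧ |ℓ v'| < k ∧ True := by
            have h1 := hlabg x hx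
            rw [abs_lt] at h1
            rcases lt_or_gt_of_ne hx0 with h | h
            · refine ⟨v + x, Or.inr rfl, ?_, trivial⟩
              rw [map_add, hv, abs_lt]; constructor <;> omega
            · refine ⟨v - x, Or.inl rfl, ?_, trivial⟩
              rw [map_sub, hv, abs_lt]; constructor <;> omega
          have hxg : x ∈ H ⊔ sp g := (le_sup_right : sp g ≤ _) (mem_sp hx)
          have hrel : ∃ t, SS [v, v'] t ∧ t ∈ H ⊔ sp g := by
            refine ⟨v + (0 - v'), SS.pos _ _ _ (SS.neg _ _ _ SS.nil), ?_⟩
            rcases hv' with rfl | rfl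
            · rwa [show v + (0 - (v - x)) = x by abel]
            · rw [show v + (0 - (v + x)) = -x by abel]; exact Submodule.neg_mem _ hxg
          obtain ⟨t', hs', ht'⟩ := hrel
          have hsup : H ⊔ sp g ⊔ sp [v, v'] = H ⊔ sp [v] ⊔ sp g := by
            rw [sp_cons v [v']]
            apply le_antisymm
            · refine sup_le (sup_le (le_sup_left.trans le_sup_left) le_sup_right)
                (sup_le (le_sup_right.trans le_sup_left) ?_)
              rw [sp_le]
              intro y hy
              simp only [List.mem_singleton] at hy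
              subst hy
              have h1 : v ∈ H ⊔ sp [v] ⊔ sp g :=
                (le_sup_left : H ⊔ sp [v] ≤ _) ((le_sup_right : sp [v] ≤ _) (mem_sp (by simp)))
              have h2 : x ∈ H ⊔ sp [v] ⊔ sp g := (le_sup_right : sp g ≤ _) (mem_sp hx)
              rcases hv' with rfl | rfl
              · exact Submodule.sub_mem _ h1 h2
              · exact Submodule.add_mem _ h1 h2
            · refine sup_le (sup_le (le_sup_left.trans le_sup_left) (le_sup_left.trans le_sup_right))
                (le_sup_right.trans le_sup_left)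
          have hsup2 : H ⊔ sp [v'] ⊔ sp g = H ⊔ sp [v] ⊔ sp g := by
            have h2 : x ∈ sp g := mem_sp hx
            apply le_antisymm
            · refine sup_le (sup_le (le_sup_left.trans le_sup_left) ?_) le_sup_right
              rw [sp_le]
              intro y hy
              simp only [List.mem_singleton] at hy
              subst hy
              have h1 : v ∈ H ⊔ sp [v] ⊔ sp g :=
                (le_sup_left : H ⊔ sp [v] ≤ _) ((le_sup_right : sp [v] ≤ _) (mem_sp (by simp)))
              have h2 : x ∈ H ⊔ sp [v] ⊔ sp g := (le_sup_right : sp g ≤ _) h2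
              rcases hv' with rfl | rfl
              · exact Submodule.sub_mem _ h1 h2
              · exact Submodule.add_mem _ h1 h2
            · refine sup_le (sup_le (le_sup_left.trans le_sup_left) ?_) le_sup_right
              rw [sp_le]
              intro y hy
              simp only [List.mem_singleton] at hy
              subst hy
              have h1 : v' ∈ H ⊔ sp [v'] ⊔ sp g :=
                (le_sup_left : H ⊔ sp [v'] ≤ _) ((le_sup_right : sp [v'] ≤ _) (mem_sp (by simp)))
              have h2 : x ∈ H ⊔ sp [v'] ⊔ sp g := (le_sup_right : sp g ≤ _) h2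
              rcases hv' with rfl | rfl
              · have := Submodule.add_mem _ h1 h2
                simpa using this
              · have := Submodule.sub_mem _ h1 h2
                simpa using this
          have hb : bd (pr [v, v']) = pt v' - pt v := by
            rw [pr_cons, pr_cons, pr_nil, mul_one, bd_pt_mul]
            have : bd (pt v') = 1 := by
              have := bd_pt_mul v' (1 : E M)
              rw [mul_one, bd_one] at this
              simpa using this
            rw [this, mul_one]
          rw [show pt v * (bd (pr g) * kl gs) = - (bd (pr [v, v']) * (bd (pr g) * kl gs)) +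
            pt v' * (bd (pr g) * kl gs) by rw [hb, sub_mul]; abel]
          apply Submodule.add_mem
          · apply (le_sup_left : Pg _ H ≤ _)
            apply Submodule.neg_mem
            have h1 : bd (pr [v, v']) * kl gs ∈ Pg (1 + len gs) (H ⊔ sp g) := by
              have := bd_pr_mul_mem_Pg (g := [v, v']) (H := H ⊔ sp g) (by simp) hs' ht'
                (y := kl gs) (m := len gs) (by rw [hsup]; exact kl_mem_Pg hok')
              simpa using this
            have h2 := bd_pr_mul_mem_Pg hne hs hh h1
            have h3 : bd (pr [v, v']) * (bd (pr g) * kl gs) =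
                bd (pr g) * (bd (pr [v, v']) * kl gs) ∨
                bd (pr [v, v']) * (bd (pr g) * kl gs) =
                - (bd (pr g) * (bd (pr [v, v']) * kl gs)) := by
              rcases Cm_bd_pr g with hc | hc
              · left
                rw [← mul_assoc, ← mul_assoc, hb, sub_mul, hc v, hc v', ← mul_sub]
              · right
                rw [← mul_assoc, ← mul_assoc, hb, sub_mul, hc v, hc v', ← neg_mul, ← sub_eq_zero]
                noncomm_ring
            rw [show g.length - 1 + len gs + 1 = g.length - 1 + (1 + len gs) by omega]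
            rcases h3 with h3 | h3 <;> rw [h3]
            · exact h2
            · exact Submodule.neg_mem _ h2
          · apply (le_sup_right : Ch _ H _ ≤ _)
            have hgU : ∀ x ∈ g, x ∈ insert e (Lv ℓ k) := fun x hx => Or.inr (hlabg x hx)
            have h1 : kl gs ∈ Ch (len gs) (H ⊔ sp [v'] ⊔ sp g) (insert e (Lv ℓ k)) := by
              rw [hsup2]
              exact kl_mem_Ch hok' (fun g hg x hx => Or.inr (hlab' g hg x hx))
            have h2 := bd_pr_mul_mem_Ch hgU hs ((le_sup_left : H ≤ H ⊔ sp [v']) hh) h1
            exact pt_mul_mem_Ch (show v' ∈ insert e (Lv ℓ k) from Or.inr hlv') h2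
      | succ c ihc =>
        intro g t hne hs ht hlabg hok'
        obtain ⟨h, hh, rfl⟩ := ht
        have hpos : 0 < ℓ (h + ((c + 1 : ℕ) : ℤ) • v) := by
          rw [map_add, hH h hh, map_smul, hv, zero_add, smul_eq_mul]
          positivity
        obtain ⟨x, g', t', hp, hs', hcase⟩ := SS_pick ℓ hs hpos
        -- reduce to the list `x :: g'`
        have hlx := hlabg x (hp.mem_iff.mpr (by simp))
        have hlabg' : ∀ y ∈ g', |ℓ y| < k := fun y hy => hlabg y (hp.mem_iff.mpr (by simp [hy]))
        rw [sp_perm hp] at hok'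
        have hlen : g.length = g'.length + 1 := by rw [hp.length_eq]; simp
        suffices hmain : pt v * (bd (pr (x :: g')) * kl gs) ∈
            Pg (g'.length + len gs + 1) H ⊔ Ch (g'.length + len gs + 1) H (insert e (Lv ℓ k)) by
          rw [hlen, Nat.add_sub_cancel]
          rcases pr_perm hp with h1 | h1 <;> rw [h1]
          · exact hmain
          · rw [map_neg, neg_mul, mul_neg]; exact Submodule.neg_mem _ hmain
        -- the new label
        obtain ⟨x', hx', hlx', hrel3, hs2⟩ : ∃ x', (x' = x - v ∨ x' = x + v) ∧ |ℓ x'| < k ∧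
            SS [v, x, x'] 0 ∧ SS (x' :: g') (h + (c : ℤ) • v) := by
          rw [abs_lt] at hlx
          rcases hcase with ⟨h1, h2⟩ | ⟨h1, h2⟩
          · refine ⟨x - v, Or.inl rfl, ?_, ?_, ?_⟩
            · rw [map_sub, hv, abs_lt]; constructor <;> omega
            · have := SS.pos v _ _ (SS.neg x _ _ (SS.pos (x - v) _ _ SS.nil))
              rwa [show v + (x - v + 0 - x) = 0 by abel] at this
            · have := SS.pos (x - v) _ _ hs'
              have h3 : x - v + t' = h + (c : ℤ) • v := by
                have : t' = h + ((c + 1 : ℕ) : ℤ) • v - x := by rw [h2]; abel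
                rw [this]; push_cast; rw [add_smul, one_smul]; abel
              rwa [h3] at this
          · refine ⟨x + v, Or.inr rfl, ?_, ?_, ?_⟩
            · rw [map_add, hv, abs_lt]; constructor <;> omega
            · have := SS.neg v _ _ (SS.neg x _ _ (SS.pos (x + v) _ _ SS.nil))
              rwa [show x + v + 0 - x - v = 0 by abel] at this
            · have := SS.neg (x + v) _ _ hs'
              have h3 : t' - (x + v) = h + (c : ℤ) • v := by
                have : t' = h + ((c + 1 : ℕ) : ℤ) • v + x := by rw [h2]; abel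
                rw [this]; push_cast; rw [add_smul, one_smul]; abel
              rwa [h3] at this
        have hvmem : v ∈ sp [x, x'] := by
          have h1 : x ∈ sp [x, x'] := mem_sp (by simp)
          have h2 : x' ∈ sp [x, x'] := mem_sp (by simp)
          rcases hx' with rfl | rfl
          · have := Submodule.sub_mem _ h1 h2; simpa using this
          · have := Submodule.sub_mem _ h2 h1; simpa using this
        have hx'mem : x' ∈ sp [v] ⊔ sp [x] := by
          have h1 : x ∈ sp [v] ⊔ sp [x] := (le_sup_right : sp [x] ≤ _) (mem_sp (by simp))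
          have h2 : v ∈ sp [v] ⊔ sp [x] := (le_sup_left : sp [v] ≤ _) (mem_sp (by simp))
          rcases hx' with rfl | rfl
          · exact Submodule.sub_mem _ h1 h2
          · exact Submodule.add_mem _ h1 h2
        have hxmem : x ∈ sp [v] ⊔ sp [x'] := by
          have h1 : x' ∈ sp [v] ⊔ sp [x'] := (le_sup_right : sp [x'] ≤ _) (mem_sp (by simp))
          have h2 : v ∈ sp [v] ⊔ sp [x'] := (le_sup_left : sp [v] ≤ _) (mem_sp (by simp))
          rcases hx' with rfl | rfl
          · have := Submodule.add_mem _ h1 h2; simpa using this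
          · have := Submodule.sub_mem _ h1 h2; simpa using this
        have hsp1 : sp [v] ⊔ sp [x'] = sp [v] ⊔ sp [x] := by
          apply le_antisymm
          · refine sup_le le_sup_left ?_
            rw [sp_le]; intro y hy; simp only [List.mem_singleton] at hy; subst hy; exact hx'mem
          · refine sup_le le_sup_left ?_
            rw [sp_le]; intro y hy; simp only [List.mem_singleton] at hy; subst hy; exact hxmem
        have hsp2 : sp [x, x'] = sp [v] ⊔ sp [x] := by
          apply le_antisymm
          · rw [sp_cons x [x']]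
            refine sup_le le_sup_right ?_
            rw [sp_le]; intro y hy; simp only [List.mem_singleton] at hy; subst hy; exact hx'mem
          · refine sup_le ?_ ?_
            · rw [sp_le]; intro y hy; simp only [List.mem_singleton] at hy; subst hy; exact hvmem
            · rw [sp_cons x [x']]; exact le_sup_left
        have hsp3 : sp [v, x, x'] = sp [v] ⊔ sp [x] := by
          rw [sp_cons v [x, x'], hsp2, ← sup_assoc, sup_idem]
        have hok1 : Ok (H ⊔ sp [v] ⊔ sp (x' :: g')) gs := by
          have : H ⊔ sp [v] ⊔ sp (x' :: g') = H ⊔ sp [v] ⊔ sp (x :: g') := by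
            calc H ⊔ sp [v] ⊔ sp (x' :: g') = H ⊔ (sp [v] ⊔ sp [x']) ⊔ sp g' := by
                  rw [sp_cons x' g']; simp only [sup_assoc]
              _ = H ⊔ (sp [v] ⊔ sp [x]) ⊔ sp g' := by rw [hsp1]
              _ = H ⊔ sp [v] ⊔ sp (x :: g') := by rw [sp_cons x g']; simp only [sup_assoc]
          rwa [this]
        have hok2 : Ok (H ⊔ sp [v, x, x'] ⊔ sp g') gs := by
          have : H ⊔ sp [v, x, x'] ⊔ sp g' = H ⊔ sp [v] ⊔ sp (x :: g') := by
            rw [hsp3, sp_cons x g']; simp only [sup_assoc]
          rwa [this]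
        have hok3 : H ⊔ sp [x, x'] ⊔ sp g' = H ⊔ sp [v] ⊔ sp (x :: g') := by
          rw [hsp2, sp_cons x g']; simp only [sup_assoc]
        -- the first term
        have T1 := ihc (x' :: g') _ (by simp) hs2 ⟨h, hh, rfl⟩ (by
          intro y hy
          rcases List.mem_cons.mp hy with rfl | hy
          · exact hlx'
          · exact hlabg' y hy) hok1
        rw [List.length_cons, Nat.add_sub_cancel] at T1
        -- the identity
        have hb3 : bd (pr [v, x, x']) = pt x * pt x' - pt v * pt x' + pt v * pt x := by
          have hb1 : bd (pt x') = 1 := by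
            have := bd_pt_mul x' (1 : E M)
            rw [mul_one, bd_one] at this
            simpa using this
          rw [pr_cons, pr_cons, pr_cons, pr_nil, mul_one, bd_pt_mul, bd_pt_mul, hb1]
          noncomm_ring
        have hid : pt v * (bd (pr (x :: g')) * kl gs) = pt v * (bd (pr (x' :: g')) * kl gs)
            - bd (pr [v, x, x']) * (bd (pr g') * kl gs)
            + pr [x, x'] * (bd (pr g') * kl gs) := by
          rw [hb3, pr_cons x g', pr_cons x' g', bd_pt_mul, bd_pt_mul, pr_cons, pr_cons, pr_nil]
          noncomm_ring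
        rw [hid]
        have hm : t' ∈ H ⊔ sp [v] ⊔ sp [x] := by
          have h1 : h + ((c + 1 : ℕ) : ℤ) • v ∈ H ⊔ sp [v] ⊔ sp [x] :=
            (le_sup_left : H ⊔ sp [v] ≤ _) (Submodule.add_mem_sup hh
              (Submodule.smul_mem _ _ (mem_sp (by simp))))
          have h2 : x ∈ H ⊔ sp [v] ⊔ sp [x] := (le_sup_right : sp [x] ≤ _) (mem_sp (by simp))
          rcases hcase with ⟨_, h3⟩ | ⟨_, h3⟩
          · rw [show t' = h + ((c + 1 : ℕ) : ℤ) • v - x by rw [h3]; abel]
            exact Submodule.sub_mem _ h1 h2
          · rw [show t' = h + ((c + 1 : ℕ) : ℤ) • v + x by rw [h3]; abel]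
            exact Submodule.add_mem _ h1 h2
        apply Submodule.add_mem
        · apply Submodule.sub_mem
          · exact T1
          · apply (le_sup_left : Pg _ H ≤ _)
            by_cases hg' : g' = []
            · subst hg'; rw [pr_nil, bd_one, zero_mul, mul_zero]; exact Submodule.zero_mem _
            · have h1 : bd (pr g') * kl gs ∈ Pg (g'.length - 1 + len gs) (H ⊔ sp [v, x, x']) := by
                apply bd_pr_mul_mem_Pg hg' hs' _ (kl_mem_Pg hok2)
                rw [hsp3, ← sup_assoc]; exact hm
              have h2 := bd_pr_mul_mem_Pg (g := [v, x, x']) (by simp) hrel3 (Submodule.zero_mem H) h1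
              have h3 : g'.length ≠ 0 := by simpa using hg'
              rw [show g'.length + len gs + 1 = [v, x, x'].length - 1 + (g'.length - 1 + len gs) by
                simp only [List.length_cons, List.length_nil]; omega]
              exact h2
        · apply (le_sup_right : Ch _ H _ ≤ _)
          by_cases hg' : g' = []
          · subst hg'; rw [pr_nil, bd_one, zero_mul, mul_zero]; exact Submodule.zero_mem _
          · have hgU : ∀ x ∈ g', x ∈ insert e (Lv ℓ k) := fun x hx => Or.inr (hlabg' x hx)
            have h0 : kl gs ∈ Ch (len gs) (H ⊔ sp [x, x'] ⊔ sp g') (insert e (Lv ℓ k)) := by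
              rw [hok3]
              exact kl_mem_Ch hok' (fun g hg x hx => Or.inr (hlab' g hg x hx))
            have h1 : bd (pr g') * kl gs ∈ Ch (g'.length - 1 + len gs) (H ⊔ sp [x, x'])
                (insert e (Lv ℓ k)) := by
              apply bd_pr_mul_mem_Ch hgU hs' _ h0
              rw [hsp2, ← sup_assoc]; exact hm
            have h2 := pr_mul_mem_Ch (g := [x, x']) (by
              intro y hy
              simp only [List.mem_cons, List.not_mem_nil, or_false] at hy
              rcases hy with rfl | rfl
              · exact Or.inr hlx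
              · exact Or.inr hlx') h1
            have h3 : g'.length ≠ 0 := by simpa using hg'
            rw [show g'.length + len gs + 1 = [x, x'].length + (g'.length - 1 + len gs) by
              simp only [List.length_cons, List.length_nil]; omega]
            exact h2
    obtain ⟨h, hh, c, hc⟩ := mem_sup_singleton ht
    rw [kl_cons, len_cons]
    rcases le_total 0 c with h0 | h0
    · obtain ⟨c', rfl⟩ := Int.eq_ofNat_of_zero_le h0
      exact inner c' g t hne hs ⟨h, hh, hc⟩ hlabg hok'
    · obtain ⟨c', hc'⟩ := Int.eq_ofNat_of_zero_le (show 0 ≤ -c by omega)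
      refine inner c' g (-t) hne (SS_neg hs) ⟨-h, Submodule.neg_mem _ hh, ?_⟩ hlabg hok'
      rw [hc, ← hc', neg_smul]; abel

end Pool.Agent.W31.QT
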