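import Pool.Agent.W31.QT.D2

/-! The induction over the vertices of maximal level. -/

namespace Pool.Agent.W31.QT

variable {M : Type} [AddCommGroup M]

lemma dl_mem_split {m : ℕ} {H : Submodule ℤ M} {w : M} {U : Set M} {a : E M}
    (ha : a ∈ Ch (m + 1) H (insert w U)) :
    dl w a ∈ Ch m (H ⊔ sp [w]) U ∧ a - pt w * dl w a ∈ Ch (m + 1) H U := by
  classical
  unfold Ch at ha
  induction ha using Submodule.span_induction with
  | mem x hx =>
    obtain ⟨l, h1, h2, h3, rfl⟩ := hx
    by_cases hw : w ∈ l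
    · have hp := List.perm_cons_erase hw
      set l' := l.erase w with hl'
      have hlen : l'.length = m := by
        have := hp.length_eq; rw [h1, List.length_cons] at this; omega
      by_cases hw' : w ∈ l'
      · have hz : pr l = 0 := by
          rcases pr_perm hp with h | h <;> rw [h, pr_cons, pt_mul_pr_of_mem hw'] <;> simp
        rw [hz]; simp
      · have h4 : dl w (pr (w :: l')) = pr l' := by
          rw [pr_cons, dl_pt_mul_self, dl_pr_of_notMem hw', mul_zero, sub_zero]
        have h5 : pr l' ∈ Ch m (H ⊔ sp [w]) U := by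
          apply Submodule.subset_span
          refine ⟨l', hlen, ?_, ?_, rfl⟩
          · intro x hx
            rcases h2 x (hp.mem_iff.mpr (by simp [hx])) with rfl | h
            · exact absurd hx hw'
            · exact h
          · rw [sup_assoc, ← sp_cons, ← sp_perm hp, h3]
        rcases pr_perm hp with h | h
        · rw [h, h4]
          refine ⟨h5, ?_⟩
          rw [pr_cons, sub_self]; exact Submodule.zero_mem _
        · rw [h, map_neg, h4]
          refine ⟨Submodule.neg_mem _ h5, ?_⟩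
          rw [pr_cons, mul_neg, sub_self]; exact Submodule.zero_mem _
    · rw [dl_pr_of_notMem hw, mul_zero, sub_zero]
      refine ⟨Submodule.zero_mem _, Submodule.subset_span ⟨l, h1, ?_, h3, rfl⟩⟩
      intro x hx
      rcases h2 x hx with rfl | h
      · exact absurd hx hw
      · exact h
  | zero => simp
  | add x y _ _ hx hy =>
    rw [map_add, mul_add]
    refine ⟨Submodule.add_mem _ hx.1 hy.1, ?_⟩
    rw [show x + y - (pt w * dl w x + pt w * dl w y) = (x - pt w * dl w x) + (y - pt w * dl w y) by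
      abel]
    exact Submodule.add_mem _ hx.2 hy.2
  | smul c x _ hx =>
    rw [map_smul, mul_smul_comm, ← smul_sub]
    exact ⟨Submodule.smul_mem _ _ hx.1, Submodule.smul_mem _ _ hx.2⟩

lemma Ch_zero_eq {H : Submodule ℤ M} {U U' : Set M} : Ch 0 H U ≤ Ch 0 H U' := by
  unfold Ch
  apply Submodule.span_mono
  rintro y ⟨l, h1, h2, h3, h4⟩
  refine ⟨l, h1, ?_, h3, h4⟩
  rw [List.length_eq_zero_iff] at h1
  subst h1; simp

/-! ### the retraction onto small levels -/

open Classical in
/-- Reduce the level modulo `v` unless it is already small. -/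
noncomputable def Rt (ℓ : M →ₗ[ℤ] ℤ) (v : M) (k : ℤ) (x : M) : M :=
  if |ℓ x| < k then x else x - (ℓ x / k) • v

lemma Rt_mem (ℓ : M →ₗ[ℤ] ℤ) (v : M) (k : ℤ) (x : M) : Rt ℓ v k x - x ∈ sp [v] := by
  unfold Rt
  split_ifs
  · rw [sub_self]; exact Submodule.zero_mem _
  · rw [show x - (ℓ x / k) • v - x = -((ℓ x / k) • v) by abel]
    exact Submodule.neg_mem _ (Submodule.smul_mem _ _ (mem_sp (by simp)))

lemma Rt_lev (ℓ : M →ₗ[ℤ] ℤ) (v : M) (k : ℤ) (hk : 0 < k) (hv : ℓ v = k) (x : M) :
    |ℓ (Rt ℓ v k x)| < k := by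
  unfold Rt
  split_ifs with h
  · exact h
  · rw [map_sub, map_smul, hv, smul_eq_mul]
    have h1 := Int.emod_nonneg (ℓ x) hk.ne'
    have h2 := Int.emod_lt_of_pos (ℓ x) hk
    have h3 : ℓ x - ℓ x / k * k = ℓ x % k := by
      rw [Int.emod_def]; ring
    rw [h3, abs_of_nonneg h1]; exact h2

lemma Rt_id (ℓ : M →ₗ[ℤ] ℤ) (v : M) (k : ℤ) {x : M} (h : |ℓ x| < k) : Rt ℓ v k x = x := by
  unfold Rt; rw [if_pos h]

lemma SS_map {R : M → M} {V : Submodule ℤ M} (hR : ∀ x, R x - x ∈ V) {g : List M} {t : M}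
    (h : SS g t) : ∃ t', SS (g.map R) t' ∧ t' - t ∈ V := by
  induction h with
  | nil => exact ⟨0, SS.nil, by simp⟩
  | pos x g t _ ih =>
    obtain ⟨t', h1, h2⟩ := ih
    refine ⟨R x + t', SS.pos _ _ _ h1, ?_⟩
    rw [show R x + t' - (x + t) = (R x - x) + (t' - t) by abel]
    exact Submodule.add_mem _ (hR x) h2
  | neg x g t _ ih =>
    obtain ⟨t', h1, h2⟩ := ih
    refine ⟨t' - R x, SS.neg _ _ _ h1, ?_⟩
    rw [show t' - R x - (t - x) = (t' - t) - (R x - x) by abel]
    exact Submodule.sub_mem _ h2 (hR x)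

lemma sp_map_sup {R : M → M} {V : Submodule ℤ M} (hR : ∀ x, R x - x ∈ V) (g : List M)
    {H : Submodule ℤ M} (hV : V ≤ H) : H ⊔ sp (g.map R) = H ⊔ sp g := by
  apply le_antisymm
  · refine sup_le le_sup_left ?_
    rw [sp_le]
    intro y hy
    obtain ⟨x, hx, rfl⟩ := List.mem_map.mp hy
    rw [show R x = (R x - x) + x by abel]
    exact Submodule.add_mem_sup (hV (hR x)) (mem_sp hx)
  · refine sup_le le_sup_left ?_
    rw [sp_le]
    intro x hx
    rw [show x = -(R x - x) + R x by abel]
    exact Submodule.add_mem_sup (Submodule.neg_mem _ (hV (hR x)))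
      (mem_sp (List.mem_map.mpr ⟨x, hx, rfl⟩))

lemma Ok_map {R : M → M} {V : Submodule ℤ M} (hR : ∀ x, R x - x ∈ V) :
    ∀ {gs : List (List M)} {H : Submodule ℤ M}, V ≤ H → Ok H gs →
      Ok H (gs.map (fun g => g.map R)) := by
  intro gs
  induction gs with
  | nil => intro H _ h; exact h
  | cons g gs ih =>
    intro H hV h
    obtain ⟨hne, ⟨t, hs, ht⟩, hok⟩ := h
    refine ⟨by simpa using hne, ?_, ?_⟩
    · obtain ⟨t', h1, h2⟩ := SS_map hR hs
      refine ⟨t', h1, ?_⟩
      rw [show t' = (t' - t) + t by abel]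
      exact Submodule.add_mem _ (hV h2) ht
    · rw [sp_map_sup hR g hV]
      exact ih (hV.trans le_sup_left) hok

lemma len_map (R : M → M) (gs : List (List M)) : len (gs.map (fun g => g.map R)) = len gs := by
  simp [len, Function.comp_def]

lemma mp_eq_self {m : ℕ} {H : Submodule ℤ M} {U : Set M} {R : M → M} (hR : ∀ x ∈ U, R x = x)
    {a : E M} (ha : a ∈ Ch m H U) : mp R a = a := by
  unfold Ch at ha
  induction ha using Submodule.span_induction with
  | mem x hx =>
    obtain ⟨l, h1, h2, h3, rfl⟩ := hx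
    rw [mp_pr]
    congr 1
    conv_rhs => rw [← List.map_id l]
    apply List.map_congr_left
    intro x hx
    exact hR x (h2 x hx)
  | zero => simp
  | add x y _ _ hx hy => rw [map_add, hx, hy]
  | smul c x _ hx => rw [map_smul, hx]

/-- The step for a fixed vertex `v`: the part `pt v * a` of a cycle can be pushed down. -/
theorem S1 (ℓ : M →ₗ[ℤ] ℤ) (e : M) (he : ℓ e = 1 ∨ ℓ e = -1) (k : ℤ) (hk : 0 < k) (v : M)
    (hv : ℓ v = k) (m : ℕ) (H : Submodule ℤ M) (hH : ∀ h ∈ H, ℓ h = 0)
    (T1 : ∀ a ∈ Ch m (H ⊔ sp [v]) Set.univ, bd a = 0 → a ∈ Pg m (H ⊔ sp [v]))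
    (T2 : ∀ (m' : ℕ), m = m' + 1 → ∀ w, ∀ b ∈ Ch m' (H ⊔ sp [v] ⊔ sp [w]) Set.univ, bd b = 0 →
      b ∈ Pg m' (H ⊔ sp [v] ⊔ sp [w])) (F : Finset M) :
    (∀ w ∈ F, |ℓ w| ≤ k) → ∀ a ∈ Ch m (H ⊔ sp [v]) (Lv ℓ k ∪ F), bd a = 0 →
      pt v * a ∈ Pg (m + 1) H ⊔ Ch (m + 1) H (insert e (Lv ℓ k) ∪ F) := by
  classical
  induction F using Finset.induction_on with
  | empty =>
    intro _ a ha hba
    simp only [Finset.coe_empty, Set.union_empty] at ha ⊢
    have h1 := T1 a (Ch_mono (Set.subset_univ _) ha) hba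
    have h2 : mp (Rt ℓ v k) a = a := mp_eq_self (fun x hx => Rt_id ℓ v k hx) ha
    have key : ∀ z ∈ Pg m (H ⊔ sp [v]), pt v * mp (Rt ℓ v k) z ∈
        Pg (m + 1) H ⊔ Ch (m + 1) H (insert e (Lv ℓ k)) := by
      intro z hz
      unfold Pg at hz
      induction hz using Submodule.span_induction with
      | mem x hx =>
        obtain ⟨gs, g1, g2, rfl⟩ := hx
        rw [mp_kl]
        have := S2 ℓ e he k hk v hv (gs.map (fun g => g.map (Rt ℓ v k))) H hH
          (Ok_map (V := sp [v]) (fun x => Rt_mem ℓ v k x) le_sup_right g1) (by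
            intro g hg x hx
            obtain ⟨g', _, rfl⟩ := List.mem_map.mp hg
            obtain ⟨y, _, rfl⟩ := List.mem_map.mp hx
            exact Rt_lev ℓ v k hk hv y)
        rwa [len_map, g2] at this
      | zero => simp
      | add x y _ _ hx hy => rw [map_add, mul_add]; exact Submodule.add_mem _ hx hy
      | smul c x _ hx => rw [map_smul, mul_smul_comm]; exact Submodule.smul_mem _ _ hx
    have := key a h1
    rwa [h2] at this
  | insert w F hw ih =>
    intro hF a ha hba
    have hF' : ∀ w ∈ F, |ℓ w| ≤ k := fun x hx => hF x (Finset.mem_insert_of_mem hx)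
    have hle : Pg (m + 1) H ⊔ Ch (m + 1) H (insert e (Lv ℓ k) ∪ F) ≤
        Pg (m + 1) H ⊔ Ch (m + 1) H (insert e (Lv ℓ k) ∪ ↑(insert w F)) := by
      apply sup_le_sup_left
      apply Ch_mono
      rw [Finset.coe_insert]
      exact Set.union_subset_union_right _ (Set.subset_insert _ _)
    by_cases hwk : |ℓ w| < k
    · apply hle
      apply ih hF' a _ hba
      apply Ch_mono _ ha
      rw [Finset.coe_insert]
      rintro x (hx | rfl | hx)
      · exact Or.inl hx
      · exact Or.inl hwk
      · exact Or.inr hx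
    rcases m with _ | m
    · apply hle
      exact ih hF' a (Ch_zero_eq ha) hba
    have hwl : |ℓ w| = k := le_antisymm (hF w (Finset.mem_insert_self _ _)) (not_lt.mp hwk)
    have hset : Lv ℓ k ∪ ↑(insert w F) = insert w (Lv ℓ k ∪ ↑F) := by
      rw [Finset.coe_insert, Set.union_insert]
    rw [hset] at ha
    obtain ⟨hb, ha'⟩ := dl_mem_split ha
    set b := dl w a with hbdef
    have hbb : bd b = 0 := by rw [hbdef, bd_dl, hba, map_zero, neg_zero]
    -- the new vertex, of level zero
    obtain ⟨w', hw', hlw', hrel⟩ : ∃ w', (w' = w - v ∨ w' = w + v) ∧ ℓ w' = 0 ∧ SS [v, w, w'] 0 := by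
      rcases abs_eq hk.le |>.mp hwl with h | h
      · refine ⟨w - v, Or.inl rfl, by rw [map_sub, hv, h, sub_self], ?_⟩
        have := SS.pos v _ _ (SS.neg w _ _ (SS.pos (w - v) _ _ SS.nil))
        rwa [show v + (w - v + 0 - w) = 0 by abel] at this
      · refine ⟨w + v, Or.inr rfl, by rw [map_add, hv, h]; ring, ?_⟩
        have := SS.neg v _ _ (SS.neg w _ _ (SS.pos (w + v) _ _ SS.nil))
        rwa [show w + v + 0 - w - v = 0 by abel] at this
    have hw'U : w' ∈ Lv ℓ k := by
      show |ℓ w'| < k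
      rw [hlw', abs_zero]; exact hk
    have hvmem : v ∈ sp [w, w'] := by
      have h1 : w ∈ sp [w, w'] := mem_sp (by simp)
      have h2 : w' ∈ sp [w, w'] := mem_sp (by simp)
      rcases hw' with rfl | rfl
      · have := Submodule.sub_mem _ h1 h2; simpa using this
      · have := Submodule.sub_mem _ h2 h1; simpa using this
    have hw'mem : w' ∈ sp [v] ⊔ sp [w] := by
      have h1 : w ∈ sp [v] ⊔ sp [w] := (le_sup_right : sp [w] ≤ _) (mem_sp (by simp))
      have h2 : v ∈ sp [v] ⊔ sp [w] := (le_sup_left : sp [v] ≤ _) (mem_sp (by simp))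
      rcases hw' with rfl | rfl
      · exact Submodule.sub_mem _ h1 h2
      · exact Submodule.add_mem _ h1 h2
    have hwmem : w ∈ sp [v] ⊔ sp [w'] := by
      have h1 : w' ∈ sp [v] ⊔ sp [w'] := (le_sup_right : sp [w'] ≤ _) (mem_sp (by simp))
      have h2 : v ∈ sp [v] ⊔ sp [w'] := (le_sup_left : sp [v] ≤ _) (mem_sp (by simp))
      rcases hw' with rfl | rfl
      · have := Submodule.add_mem _ h1 h2; simpa using this
      · have := Submodule.sub_mem _ h1 h2; simpa using this
    have hsp1 : sp [v] ⊔ sp [w'] = sp [v] ⊔ sp [w] := by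
      apply le_antisymm
      · refine sup_le le_sup_left ?_
        rw [sp_le]; intro y hy; simp only [List.mem_singleton] at hy; subst hy; exact hw'mem
      · refine sup_le le_sup_left ?_
        rw [sp_le]; intro y hy; simp only [List.mem_singleton] at hy; subst hy; exact hwmem
    have hsp2 : sp [w, w'] = sp [v] ⊔ sp [w] := by
      apply le_antisymm
      · rw [sp_cons w [w']]
        refine sup_le le_sup_right ?_
        rw [sp_le]; intro y hy; simp only [List.mem_singleton] at hy; subst hy; exact hw'mem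
      · refine sup_le ?_ ?_
        · rw [sp_le]; intro y hy; simp only [List.mem_singleton] at hy; subst hy; exact hvmem
        · rw [sp_cons w [w']]; exact le_sup_left
    have hsp3 : sp [v, w, w'] = sp [v] ⊔ sp [w] := by
      rw [sp_cons v [w, w'], hsp2, ← sup_assoc, sup_idem]
    -- the modified chain
    set r := pt w' * b + (a - pt w * b) with hr
    have hrmem : r ∈ Ch (m + 1) (H ⊔ sp [v]) (Lv ℓ k ∪ F) := by
      apply Submodule.add_mem _ _ ha'
      apply pt_mul_mem_Ch (show w' ∈ Lv ℓ k ∪ ↑F from Or.inl hw'U)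
      have : H ⊔ sp [v] ⊔ sp [w'] = H ⊔ sp [v] ⊔ sp [w] := by
        rw [sup_assoc, hsp1, sup_assoc]
      rw [this]; exact hb
    have hbr : bd r = 0 := by
      rw [hr, map_add, map_sub, bd_pt_mul, bd_pt_mul, hbb, hba]
      simp
    have I1 := ih hF' r hrmem hbr
    have hb3 : bd (pr [v, w, w']) = pt w * pt w' - pt v * pt w' + pt v * pt w := by
      have hb1 : bd (pt w') = 1 := by
        have := bd_pt_mul w' (1 : E M)
        rw [mul_one, bd_one] at this
        simpa using this
      rw [pr_cons, pr_cons, pr_cons, pr_nil, mul_one, bd_pt_mul, bd_pt_mul, hb1]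
      noncomm_ring
    have hid : pt v * a = pt v * r + bd (pr [v, w, w']) * b - pr [w, w'] * b := by
      rw [hr, hb3, pr_cons, pr_cons, pr_nil]
      noncomm_ring
    rw [hid]
    apply Submodule.sub_mem
    · apply Submodule.add_mem
      · exact hle I1
      · apply (le_sup_left : Pg _ H ≤ _)
        have h1 : b ∈ Pg m (H ⊔ sp [v] ⊔ sp [w]) :=
          T2 m rfl w b (Ch_mono (Set.subset_univ _) hb) hbb
        have h2 : b ∈ Pg m (H ⊔ sp [v, w, w']) := by
          rw [hsp3, ← sup_assoc]; exact h1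
        have h3 := bd_pr_mul_mem_Pg (g := [v, w, w']) (by simp) hrel (Submodule.zero_mem H) h2
        rw [show m + 1 + 1 = [v, w, w'].length - 1 + m by
          simp only [List.length_cons, List.length_nil]; omega]
        exact h3
    · apply (le_sup_right : Ch _ H _ ≤ _)
      have h1 : b ∈ Ch m (H ⊔ sp [w, w']) (insert e (Lv ℓ k) ∪ ↑(insert w F)) := by
        rw [hsp2, ← sup_assoc]
        apply Ch_mono _ hb
        rintro x (hx | hx)
        · exact Or.inl (Or.inr hx)
        · exact Or.inr (by rw [Finset.coe_insert]; exact Or.inr hx)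
      have h2 := pr_mul_mem_Ch (g := [w, w']) (by
        intro y hy
        simp only [List.mem_cons, List.not_mem_nil, or_false] at hy
        rcases hy with rfl | rfl
        · exact Or.inr (by simp)
        · exact Or.inl (Or.inr hw'U)) h1
      rw [show m + 1 + 1 = [w, w'].length + m by
        simp only [List.length_cons, List.length_nil]; omega]
      exact h2

end Pool.Agent.W31.QT
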