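import Pool.Agent.W31.QT.D3

/-! Every cycle is a sum of classes of joins of boundaries of simplices. -/

namespace Pool.Agent.W31.QT

variable {M : Type} [AddCommGroup M]

lemma Ch_eq_bot {m : ℕ} {H : Submodule ℤ M} {U : Set M}
    (h : ∀ l : List M, l.length = m → (∀ x ∈ l, x ∈ U) → H ⊔ sp l ≠ ⊤) : Ch m H U = ⊥ := by
  unfold Ch
  rw [Submodule.span_eq_bot]
  rintro y ⟨l, h1, h2, h3, h4⟩
  exact absurd h3 (h l h1 h2)

lemma Ch_finite {m : ℕ} {H : Submodule ℤ M} {U : Set M} {z : E M} (hz : z ∈ Ch m H U) :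
    ∃ F : Finset M, (∀ x ∈ F, x ∈ U) ∧ z ∈ Ch m H F := by
  classical
  unfold Ch at hz
  induction hz using Submodule.span_induction with
  | mem x hx =>
    obtain ⟨l, h1, h2, h3, rfl⟩ := hx
    refine ⟨l.toFinset, fun x hx => h2 x (by simpa using hx), ?_⟩
    exact Submodule.subset_span ⟨l, h1, fun x hx => by simpa using hx, h3, rfl⟩
  | zero => exact ⟨∅, by simp, Submodule.zero_mem _⟩
  | add x y _ _ hx hy =>
    obtain ⟨F, h1, h2⟩ := hx
    obtain ⟨G, h3, h4⟩ := hy
    refine ⟨F ∪ G, ?_, Submodule.add_mem _ (Ch_mono ?_ h2) (Ch_mono ?_ h4)⟩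
    · intro x hx
      rcases Finset.mem_union.mp hx with h | h
      · exact h1 x h
      · exact h3 x h
    · intro x hx; simp only [Finset.coe_union]; exact Or.inl hx
    · intro x hx; simp only [Finset.coe_union]; exact Or.inr hx
  | smul c x _ hx =>
    obtain ⟨F, h1, h2⟩ := hx
    exact ⟨F, h1, Submodule.smul_mem _ _ h2⟩

/-- A submodule generated by few elements. -/
def Sm (N : ℕ) (H : Submodule ℤ M) (m : ℕ) : Prop :=
  ∃ S : List M, sp S = H ∧ S.length + m ≤ N

lemma Sm_sup {N : ℕ} {H : Submodule ℤ M} {m : ℕ} (h : Sm N H (m + 1)) (v : M) :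
    Sm N (H ⊔ sp [v]) m := by
  obtain ⟨S, h1, h2⟩ := h
  refine ⟨v :: S, by rw [sp_cons, h1, sup_comm], by rw [List.length_cons]; omega⟩

/-- The rank condition on the ambient module. -/
def Rk (M : Type) [AddCommGroup M] (N : ℕ) : Prop :=
  ∀ (H : Submodule ℤ M) (m : ℕ), Sm N H (m + 1) → ∀ l : List M, l.length = m + 1 → H ⊔ sp l = ⊤ →
    ∃ (ℓ : M →ₗ[ℤ] ℤ) (e : M), (∀ h ∈ H, ℓ h = 0) ∧ ℓ e = 1

theorem main {N : ℕ} (hN : Rk M N) : ∀ (m : ℕ) (H : Submodule ℤ M), Sm N H m →
    ∀ z ∈ Ch m H Set.univ, bd z = 0 → z ∈ Pg m H := by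
  classical
  intro m
  induction m using Nat.strong_induction_on with
  | _ m IH =>
  intro H hSm z hz hbz
  rcases m with _ | m
  · -- dimension zero
    have : Ch 0 H (Set.univ : Set M) ≤ Pg 0 H := by
      unfold Ch
      rw [Submodule.span_le]
      rintro y ⟨l, h1, h2, h3, rfl⟩
      rw [List.length_eq_zero_iff] at h1
      subst h1
      rw [sp_nil, sup_bot_eq] at h3
      exact kl_mem_Pg (gs := []) h3
    exact this hz
  by_cases hgen : ∃ l : List M, l.length = m + 1 ∧ H ⊔ sp l = ⊤
  swap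
  · have : Ch (m + 1) H (Set.univ : Set M) = ⊥ :=
      Ch_eq_bot (fun l h1 _ h3 => hgen ⟨l, h1, h3⟩)
    rw [this, Submodule.mem_bot] at hz
    rw [hz]; exact Submodule.zero_mem _
  obtain ⟨l0, hl0, hl1⟩ := hgen
  obtain ⟨ℓ, e, hH, he⟩ := hN H m hSm l0 hl0 hl1
  -- the tools for smaller dimensions
  have T1 : ∀ v, ∀ a ∈ Ch m (H ⊔ sp [v]) Set.univ, bd a = 0 → a ∈ Pg m (H ⊔ sp [v]) :=
    fun v a ha hb => IH m (by omega) _ (Sm_sup hSm v) a ha hb
  have T2 : ∀ v, ∀ (m' : ℕ), m = m' + 1 → ∀ w, ∀ b ∈ Ch m' (H ⊔ sp [v] ⊔ sp [w]) Set.univ,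
      bd b = 0 → b ∈ Pg m' (H ⊔ sp [v] ⊔ sp [w]) := by
    intro v m' hm w b hb hbb
    subst hm
    exact IH m' (by omega) _ (Sm_sup (Sm_sup hSm v) w) b hb hbb
  -- induction on the level
  have A : ∀ (k : ℕ) (z : E M), z ∈ Ch (m + 1) H (insert e (Lv ℓ (k + 1))) → bd z = 0 →
      z ∈ Pg (m + 1) H := by
    intro k
    induction k with
    | zero =>
      intro z hz hbz
      obtain ⟨h1, h2⟩ := dl_mem_split hz
      have h3 : Ch (m + 1) H (Lv ℓ (((0 : ℕ) : ℤ) + 1)) = ⊥ := by
        apply Ch_eq_bot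
        intro l _ hl htop
        have h4 : H ⊔ sp l ≤ LinearMap.ker ℓ := by
          refine sup_le (fun h hh => hH h hh) ?_
          rw [sp_le]
          intro x hx
          have := hl x hx
          simp only [Lv, Set.mem_ofPred_eq, Nat.cast_zero, zero_add] at this
          rw [LinearMap.mem_ker]
          exact Int.abs_lt_one_iff.mp this
        rw [htop] at h4
        have : ℓ e = 0 := h4 (Submodule.mem_top)
        rw [he] at this
        exact one_ne_zero this
      rw [h3, Submodule.mem_bot, sub_eq_zero] at h2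
      have h4 : bd (dl e z) = 0 := by rw [bd_dl, hbz, map_zero, neg_zero]
      have h5 : dl e z = 0 := by
        have := hbz
        rw [h2, bd_pt_mul, h4, mul_zero, sub_zero] at this
        exact this
      rw [h2, h5, mul_zero]
      exact Submodule.zero_mem _
    | succ k ihk =>
      -- induction on the set of vertices of maximal level
      have B : ∀ (F : Finset M), (∀ w ∈ F, |ℓ w| = (k : ℤ) + 1) → ∀ z : E M,
          z ∈ Ch (m + 1) H (insert e (Lv ℓ ((k : ℤ) + 1)) ∪ F) → bd z = 0 → z ∈ Pg (m + 1) H := by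
        intro F
        induction F using Finset.induction_on with
        | empty =>
          intro _ z hz hbz
          simp only [Finset.coe_empty, Set.union_empty] at hz
          exact ihk z hz hbz
        | insert v F hv ihF =>
          intro hF z hz hbz
          have hF' : ∀ w ∈ F, |ℓ w| = (k : ℤ) + 1 := fun x hx => hF x (Finset.mem_insert_of_mem hx)
          rw [Finset.coe_insert, Set.union_insert] at hz
          obtain ⟨ha, hz'⟩ := dl_mem_split hz
          set a := dl v z with hadef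
          have hba : bd a = 0 := by rw [hadef, bd_dl, hbz, map_zero, neg_zero]
          have hvk : |ℓ v| = (k : ℤ) + 1 := hF v (Finset.mem_insert_self _ _)
          -- choose the sign of the level function
          obtain ⟨ℓ', hl', hv', habs, he'⟩ : ∃ ℓ' : M →ₗ[ℤ] ℤ, (∀ h ∈ H, ℓ' h = 0) ∧
              ℓ' v = (k : ℤ) + 1 ∧ (∀ x, |ℓ' x| = |ℓ x|) ∧ (ℓ' e = 1 ∨ ℓ' e = -1) := by
            rcases abs_eq (by omega : (0 : ℤ) ≤ (k : ℤ) + 1) |>.mp hvk with h | h
            · exact ⟨ℓ, hH, h, fun x => rfl, Or.inl he⟩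
            · refine ⟨-ℓ, fun x hx => by simp [hH x hx], by simp [h], fun x => by simp, ?_⟩
              right; simp [he]
          have hLv : Lv ℓ' ((k : ℤ) + 1) = Lv ℓ ((k : ℤ) + 1) := by
            ext x; simp [Lv, habs]
          have hsetE : ∀ (X : Set M), insert e X ∪ (F : Set M) = X ∪ ↑(insert e F) := by
            intro X
            rw [Finset.coe_insert, Set.union_insert, Set.insert_union]
          have I := S1 ℓ' e he' ((k : ℤ) + 1) (by omega) v hv' m H hl' (T1 v) (T2 v) (insert e F)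
            (by
              intro w hw
              rw [habs]
              rcases Finset.mem_insert.mp hw with rfl | hw
              · rw [he, abs_one]; omega
              · exact (hF' w hw).le) a (by
              rw [hLv, ← hsetE]; exact ha) hba
          rw [hLv, ← hsetE, Set.insert_comm] at I
          rw [show insert e (insert e (Lv ℓ ((k : ℤ) + 1))) = insert e (Lv ℓ ((k : ℤ) + 1)) by
            simp] at I
          obtain ⟨p, hp, c, hc, hpc⟩ := Submodule.mem_sup.mp I
          have hz2 : z = p + (c + (z - pt v * a)) := by rw [← hpc]; abel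
          have h1 : c + (z - pt v * a) ∈ Ch (m + 1) H (insert e (Lv ℓ ((k : ℤ) + 1)) ∪ F) :=
            Submodule.add_mem _ hc hz'
          have h2 : bd (c + (z - pt v * a)) = 0 := by
            have := congrArg bd hz2
            rw [hbz, map_add, bd_Pg hp, zero_add] at this
            exact this.symm
          rw [hz2]
          exact Submodule.add_mem _ hp (ihF hF' _ h1 h2)
      intro z hz hbz
      obtain ⟨F, hF, hzF⟩ := Ch_finite hz
      apply B (F.filter (fun x => |ℓ x| = (k : ℤ) + 1)) (by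
        intro w hw; exact (Finset.mem_filter.mp hw).2) z _ hbz
      apply Ch_mono _ hzF
      intro x hx
      rcases hF x hx with rfl | h
      · exact Or.inl (Or.inl rfl)
      · by_cases hx2 : |ℓ x| = (k : ℤ) + 1
        · right; simp only [Finset.coe_filter, Set.mem_ofPred_eq]; exact ⟨hx, hx2⟩
        · left; right
          have h' : |ℓ x| < ((k + 1 : ℕ) : ℤ) + 1 := h
          show |ℓ x| < (k : ℤ) + 1
          push_cast at h'
          omega
  obtain ⟨F, _, hzF⟩ := Ch_finite hz
  obtain ⟨k, hk⟩ : ∃ k : ℕ, ∀ x ∈ F, |ℓ x| < (k : ℤ) + 1 := by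
    refine ⟨∑ x ∈ F, (ℓ x).natAbs, fun x hx => ?_⟩
    have h1 : (ℓ x).natAbs ≤ ∑ x ∈ F, (ℓ x).natAbs :=
      Finset.single_le_sum (f := fun x => (ℓ x).natAbs) (fun _ _ => Nat.zero_le _) hx
    have h2 : |ℓ x| = ((ℓ x).natAbs : ℤ) := (Int.natCast_natAbs _).symm
    rw [h2]; omega
  apply A k z _ hbz
  exact Ch_mono (fun x hx => Or.inr (hk x hx)) hzF

/-! ### the rank condition for `ℤ^n` -/

lemma sp_eq_range {N : ℕ} (f : Fin N → M) : sp (List.ofFn f) = Submodule.span ℤ (Set.range f) := by
  unfold sp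
  congr 1
  ext x
  simp [List.mem_ofFn]

theorem Rk_pi (n : ℕ) : Rk (Fin n → ℤ) n := by
  intro H m hSm l hl htop
  obtain ⟨S, hS, hlen⟩ := hSm
  -- a spanning list of length at most n
  set L := l ++ S with hL
  have hspan : sp L = ⊤ := by rw [hL, sp_append, hS, sup_comm, htop]
  have hLlen : L.length ≤ n := by rw [hL, List.length_append]; omega
  -- pad with zeros
  set f : Fin n → (Fin n → ℤ) := fun i => (L[i.1]?).getD 0 with hf
  have hsurj : Function.Surjective (Fintype.linearCombination ℤ f) := by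
    rw [← LinearMap.range_eq_top, Fintype.range_linearCombination, eq_top_iff, ← hspan, sp_le]
    intro x hx
    obtain ⟨i, hi, rfl⟩ := List.mem_iff_getElem.mp hx
    apply Submodule.subset_span
    refine ⟨⟨i, lt_of_lt_of_le hi hLlen⟩, ?_⟩
    simp [hf, hi]
  have hinj : Function.Injective (Fintype.linearCombination ℤ f) :=
    OrzechProperty.injective_of_surjective_endomorphism _ hsurj
  let φ := LinearEquiv.ofBijective _ ⟨hinj, hsurj⟩
  have hφ : ∀ i, φ.symm (f i) = Pi.single i 1 := by
    intro i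
    rw [LinearEquiv.symm_apply_eq]
    show f i = Fintype.linearCombination ℤ f (Pi.single i 1)
    rw [Fintype.linearCombination_apply_single, one_smul]
  have hn : 0 < n := by omega
  refine ⟨(LinearMap.proj (⟨0, hn⟩ : Fin n)) ∘ₗ φ.symm.toLinearMap, f ⟨0, hn⟩, ?_, ?_⟩
  · have : H ≤ LinearMap.ker ((LinearMap.proj (⟨0, hn⟩ : Fin n) : (Fin n → ℤ) →ₗ[ℤ] ℤ) ∘ₗ
        φ.symm.toLinearMap) := by
      rw [← hS, sp_le]
      intro x hx
      obtain ⟨i, hi, rfl⟩ := List.mem_iff_getElem.mp hx
      rw [LinearMap.mem_ker]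
      have hi' : l.length + i < n := by
        have : L.length = l.length + S.length := by rw [hL, List.length_append]
        omega
      have : S[i] = f ⟨l.length + i, hi'⟩ := by
        simp [hf, hL, List.getElem?_append_right, hi]
      rw [this]
      simp only [LinearMap.coe_comp, Function.comp_apply, LinearEquiv.coe_coe, LinearMap.proj_apply,
        hφ]
      rw [Pi.single_apply, if_neg]
      intro h
      have := congrArg Fin.val h
      simp only at this
      omega
    intro h hh
    exact this hh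
  · simp only [LinearMap.coe_comp, Function.comp_apply, LinearEquiv.coe_coe, LinearMap.proj_apply, hφ]
    simp

theorem taskD : TaskD := by
  intro n z hz hbz
  refine main (Rk_pi n) n ⊥ ⟨[], sp_nil, by simp⟩ z hz hbz

end Pool.Agent.W31.QT
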